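import Pool.Agent.E8helper68.QF.Main

set_option autoImplicit false

open Filter Topology Finset

namespace Pool.Agent.Results.MP_7a8f48_an.DeformedFockExtensionsH68

/-- The Möbius sum `∑_{n ≤ N} μ(n) wⁿ fⁿ(x)` of the orbit of `x`, twisted by the powers of `w`. -/
noncomputable def moebiusSum {A : Type} [CStarAlgebra A] (f : A → A) (x : A) (N : ℕ) (w : ℂ) : A :=
  ∑ n ∈ Icc 1 N, (((ArithmeticFunction.moebius n : ℤ) : ℂ) * w ^ n) • f^[n] x

/-- The Möbius sums of `x` are `o(N)` in norm, uniformly over all rotations. -/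
def Disj {A : Type} [CStarAlgebra A] (f : A → A) (x : A) : Prop :=
  ∀ ε : ℝ, 0 < ε → ∃ N₀ : ℕ, ∀ N ≥ N₀, ∀ w : ℂ, ‖w‖ = 1 → ‖moebiusSum f x N w‖ ≤ ε * N

/-- `x` is an eigenvector of `f`, with an eigenvalue of modulus one. -/
def Eigen {A : Type} [CStarAlgebra A] (f : A → A) (x : A) : Prop :=
  ∃ c : ℂ, ‖c‖ = 1 ∧ f x = c • x

/-- `W` is a deformed Fock extension of its `*`-subalgebra `𝒜`, with creation operators `s ξ` for
`ξ` in the pairwise orthogonal subspaces `K i` of `H`: one has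
`s(η)* s(ξ) = s(ξ) z_ij s(η)* + ⟨η, ξ⟩ p_i` for `η ∈ K i` and `ξ ∈ K j`, where the deformation
parameters `z_ij` and the `p_i` are in `𝒜`; each product of an element of `𝒜` and a creation
operator is a sum of products of creation operators and elements of `𝒜`; and `W` is generated by
`𝒜` and the creation operators. -/
structure FockExtension {W H ι : Type} [CStarAlgebra W] [NormedAddCommGroup H]
    [InnerProductSpace ℂ H] (𝒜 : StarSubalgebra ℂ W) (s : H →ₗ[ℂ] W) (K : ι → Submodule ℂ H)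
    (z : ι → ι → W) (p : ι → W) : Prop where
  orth : ∀ i j, i ≠ j → ∀ η ∈ K i, ∀ ξ ∈ K j, (inner ℂ η ξ : ℂ) = 0
  mem_z : ∀ i j, z i j ∈ 𝒜
  mem_p : ∀ i, p i ∈ 𝒜
  comm : ∀ i j, ∀ η ∈ K i, ∀ ξ ∈ K j,
    star (s η) * s ξ = s ξ * z i j * star (s η) + (inner ℂ η ξ : ℂ) • p i
  coeff : ∀ a ∈ 𝒜, ∀ i, ∀ ξ ∈ K i,
    a * s ξ ∈ Submodule.span ℂ {x | ∃ j, ∃ ζ ∈ K j, ∃ b ∈ 𝒜, x = s ζ * b}
  gen : (StarAlgebra.adjoin ℂ
    ((𝒜 : Set W) ∪ {x | ∃ i, ∃ ξ ∈ K i, x = s ξ})).topologicalClosure = ⊤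

/-- `γ` extends the isometry `V` of the one-particle space `H`, which maps `K i` to `K (π i)`; and
on each orbit of `π`, the norms of the deformation parameters are at most a constant less than `1`
and those of the `p_i` are bounded. There is no condition on `z i j` if `i` and `j` are in disjoint
orbits. -/
structure SecondQuantised {W H ι : Type} [CStarAlgebra W] [NormedAddCommGroup H]
    [InnerProductSpace ℂ H] (s : H →ₗ[ℂ] W) (K : ι → Submodule ℂ H) (z : ι → ι → W) (p : ι → W)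
    (γ : W →⋆ₐ[ℂ] W) (V : H →ₗᵢ[ℂ] H) (π : ι → ι) : Prop where
  map : ∀ i, ∀ ξ ∈ K i, V ξ ∈ K (π i) ∧ γ (s ξ) = s (V ξ)
  lt : ∀ i, ∃ r M : ℝ, r < 1 ∧
    ∀ m n : ℕ, ‖z (π^[m] i) (π^[n] i)‖ ≤ r ∧ ‖p (π^[n] i)‖ ≤ M

open Pool.Agent.TH254.FP Pool.Agent.E8helper68.QF

/-- **Möbius disjointness passes to deformed Fock extensions.**

Let `W` be a deformed Fock extension of its `*`-subalgebra `𝒜` and let `γ` be a unital
`*`-endomorphism of `W` which extends an isometry of the one-particle space. Assume that `𝒜` is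
contained in the closed span of the elements whose Möbius sums are `o(N)` in norm, uniformly over
all rotations, and of the eigenvectors of `γ`. Then the Möbius sums of each element of `W` are
`o(N)` in norm, uniformly over all rotations; and this holds also for each element of each system
`(B, β)` which is generated by an equivariant image of `W` and eigenvectors of `β`, and of each
system `(D, δ)` which embeds in such a `(B, β)`. In particular `(1/N) ∑ μ(n) ρ(δⁿ x) → 0` for all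
bounded functionals `ρ`. -/
theorem result (W H ι : Type) [CStarAlgebra W] [NormedAddCommGroup H] [InnerProductSpace ℂ H]
    (𝒜 : StarSubalgebra ℂ W) (s : H →ₗ[ℂ] W) (K : ι → Submodule ℂ H) (z : ι → ι → W) (p : ι → W)
    (hW : FockExtension 𝒜 s K z p) (γ : W →⋆ₐ[ℂ] W) (V : H →ₗᵢ[ℂ] H) (π : ι → ι)
    (hγ : SecondQuantised s K z p γ V π)
    (hA : (𝒜 : Set W) ⊆ closure (Submodule.span ℂ {x : W | Disj γ x ∨ Eigen γ x} : Set W))
    (B : Type) [CStarAlgebra B] (β : B →⋆ₐ[ℂ] B) (g : W →⋆ₐ[ℂ] B) (hg : ∀ a, β (g a) = g (γ a))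
    (hgen : (Submodule.span ℂ {x : B | ∃ a w, Eigen β w ∧ x = g a * w}).topologicalClosure = ⊤)
    (D : Type) [CStarAlgebra D] (δ : D →⋆ₐ[ℂ] D) (κ : D →⋆ₐ[ℂ] B) (hκ : Function.Injective κ)
    (hδ : ∀ x, κ (δ x) = β (κ x)) (x : D) :
    Disj δ x ∧ ∀ ρ : D →L[ℂ] ℂ, Tendsto (fun N : ℕ => (1 / (N : ℂ)) * ∑ n ∈ Icc 1 N,
      ((ArithmeticFunction.moebius n : ℤ) : ℂ) * ρ (δ^[n] x)) atTop (𝓝 0) := by
  have h1 : ∀ a, UD γ a := main ⟨hW.orth, hW.comm⟩ γ π V hγ.map hγ.lt 𝒜 hW.mem_z hW.mem_p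
    hW.coeff hW.gen hA
  have hgen' : (Submodule.span ℂ {x : B | ∃ a w, ∃ c : ℂ, ‖c‖ = 1 ∧ β w = c • w ∧
      x = g a * w}).topologicalClosure = ⊤ := by
    have e : {x : B | ∃ a w, ∃ c : ℂ, ‖c‖ = 1 ∧ β w = c • w ∧ x = g a * w} =
        {x : B | ∃ a w, Eigen β w ∧ x = g a * w} := by
      ext x
      constructor
      · rintro ⟨a, w, c, h1, h2, h3⟩
        exact ⟨a, w, ⟨c, h1, h2⟩, h3⟩
      · rintro ⟨a, w, ⟨c, h1, h2⟩, h3⟩
        exact ⟨a, w, c, h1, h2, h3⟩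
    rw [e]
    exact hgen
  have h2 : UD δ x := ud_embed hκ hδ (ud_ext hg hgen' h1 (κ x))
  exact ⟨h2, fun ρ => ud_functional h2 ρ⟩

end Pool.Agent.Results.MP_7a8f48_an.DeformedFockExtensionsH68
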