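import Pool.Agent.E8helper86.NS.Last

/-! Möbius disjointness for automorphisms of C*-algebras with spectra of Lebesgue measure zero, and
the converse. -/

set_option autoImplicit false

open Filter Topology Finset MeasureTheory

namespace Pool.Agent.Results.MP_7a8f48_an.NullSpectrumH86

universe u v

open Classical in
/-- `E` has logarithmic density zero -/
def LogDensityZero (E : Set ℕ) : Prop :=
  Tendsto (fun X : ℕ => (∑ n ∈ Icc 1 X, if n ∈ E then (1 : ℝ) / n else 0) / Real.log X) atTop (𝓝 0)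

/-- the large numbers outside `E` -/
def outside (E : Set ℕ) : Filter ℕ := atTop ⊓ 𝓟 Eᶜ

/-- `c` is bounded by one and its self correlations tend to zero outside `E` -/
def Uncorrelated (E : Set ℕ) (c : ℕ → ℂ) : Prop :=
  (∀ n, ‖c n‖ ≤ 1) ∧ ∀ h : ℕ, 1 ≤ h →
    Tendsto (fun N : ℕ => (1 / (N : ℂ)) * ∑ n ∈ Icc 1 N, star (c n) * c (n + h)) (outside E) (𝓝 0)

/-- the Möbius function -/
noncomputable def mu (n : ℕ) : ℂ := ((ArithmeticFunction.moebius n : ℤ) : ℂ)

/-- the Liouville function -/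
noncomputable def lam (n : ℕ) : ℂ := (((-1) ^ ArithmeticFunction.cardFactors n : ℤ) : ℂ)

/-- `e(nθ)` -/
noncomputable def phase (n : ℕ) (θ : ℝ) : ℂ := Complex.exp (2 * Real.pi * Complex.I * n * θ)

/-- the sum of `c n e(nθ) f n` over `1 ≤ n ≤ N` -/
noncomputable def wsum {Y : Type*} [NormedAddCommGroup Y] [NormedSpace ℂ Y] (c : ℕ → ℂ) (θ : ℝ)
    (f : ℤ → Y) (N : ℕ) : Y :=
  ∑ n ∈ Icc 1 N, (c n * phase n θ) • f n

/-- The sequence `a` has its spectrum in `K ⊆ ℝ/ℤ`: it is annihilated by each absolutely summable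
`f : ℤ → ℂ` whose Fourier series `∑ f n exp (2 π i n η)` vanishes for all `η` in an open set which
contains `K`. -/
def SpectrumIn {Y : Type*} [NormedAddCommGroup Y] [NormedSpace ℂ Y] (K : Set UnitAddCircle)
    (a : ℤ → Y) : Prop :=
  ∀ f : ℤ → ℂ, Summable (fun n => ‖f n‖) →
    (∃ U : Set UnitAddCircle, IsOpen U ∧ K ⊆ U ∧ ∀ η ∈ U, ∑' n, f n * fourier n η = 0) →
    ∑' n, f n • a n = 0

/-- the powers of a unitary -/
def pw {B : Type u} [CStarAlgebra B] (w : unitary B) (n : ℤ) : B := ((w ^ n : unitary B) : B)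

/-- the spectrum of a unitary, as a subset of `ℝ/ℤ` -/
def circleSpectrum {B : Type u} [CStarAlgebra B] (w : unitary B) : Set UnitAddCircle :=
  {θ : UnitAddCircle | (fourier 1 θ : ℂ) ∈ spectrum ℂ (w : B)}

/-- (1) For sequences `f` bounded by one with spectrum in `K`, with values in a Banach space, or with
values in a C*-algebra and multiplied by the powers of any unitary `v` of this algebra, the sums of
`c n e(nθ) f n`, `c n e(nθ) f n vⁿ` and `c n e(nθ) vⁿ f n` over `1 ≤ n ≤ N` have norm at most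
`(|K| ^ (1/2) + ε) N`, for `N` outside `E` and large in terms of `ε`, `K` and `c` only. -/
def SequenceBound (K : Set UnitAddCircle) (E : Set ℕ) (c : ℕ → ℂ) : Prop :=
  ∀ ε : ℝ, 0 < ε → ∀ᶠ N : ℕ in outside E,
    (∀ (Y : Type u) [NormedAddCommGroup Y] [NormedSpace ℂ Y] [CompleteSpace Y] (f : ℤ → Y) (θ : ℝ),
      (∀ n, ‖f n‖ ≤ 1) → SpectrumIn K f → ‖wsum c θ f N‖ ≤ (√(volume K).toReal + ε) * N) ∧
    ∀ (B : Type u) [CStarAlgebra B] (f : ℤ → B) (v : unitary B) (θ : ℝ),
      (∀ n, ‖f n‖ ≤ 1) → SpectrumIn K f →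
      ‖wsum c θ (fun n => f n * pw v n) N‖ ≤ (√(volume K).toReal + ε) * N ∧
      ‖wsum c θ (fun n => pw v n * f n) N‖ ≤ (√(volume K).toReal + ε) * N

/-- The sequence `f` is disjoint from `c`: in norm, uniformly in the twist by `e(nθ)`, for the
averages over `n ≤ N` with `N` outside `E` and for the logarithmic averages; hence also for each
bounded functional `ρ`. -/
def SeqDisjoint {Y : Type u} [NormedAddCommGroup Y] [NormedSpace ℂ Y] (E : Set ℕ) (c : ℕ → ℂ)
    (f : ℤ → Y) : Prop :=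
  (∀ ε : ℝ, 0 < ε → ∀ᶠ N : ℕ in outside E, ∀ θ : ℝ, ‖wsum c θ f N‖ ≤ ε * N) ∧
  (∀ ε : ℝ, 0 < ε → ∀ᶠ X : ℕ in atTop, ∀ θ : ℝ,
    ‖wsum (fun n => c n / n) θ f X‖ ≤ ε * Real.log X) ∧
  ∀ ρ : Y →L[ℂ] ℂ,
    Tendsto (fun N : ℕ => (1 / (N : ℂ)) * ∑ n ∈ Icc 1 N, c n * ρ (f n)) (outside E) (𝓝 0) ∧
    Tendsto (fun X : ℕ => (1 / (Real.log X : ℂ)) * ∑ n ∈ Icc 1 X, c n / n * ρ (f n)) atTop (𝓝 0)

/-- `f` is an orbit of the map `T` -/
def IsOrbit {A : Type u} (T : A → A) (f : ℤ → A) : Prop := ∀ n, f (n + 1) = T (f n)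

/-- the map `T` is implemented by the unitary `w` -/
def Implements {A : Type u} {B : Type v} [CStarAlgebra B] (w : unitary B) (T : A → A) (ι : A → B) :
    Prop :=
  ∀ x, ι (T x) * (w : B) = w * ι x

/-- The points `x` for which, with the orbit `f` of `x` and some unitary `w`, the sequence
`f n wⁿ` has its spectrum in a closed set of measure zero. -/
def NullTwist {A : Type u} {B : Type v} [CStarAlgebra B] (T : A → A) (ι : A → B) : Set A :=
  {x | ∃ (f : ℤ → A) (w : unitary B) (K : Set UnitAddCircle), f 0 = x ∧ IsOrbit T f ∧ IsClosed K ∧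
    volume K = 0 ∧ SpectrumIn K (fun n : ℤ => ι (f n) * pw w n)}

/-- The orbits under `T` of all points of the closed linear span of `S` are disjoint from `c`. -/
def OrbitsDisjoint {A : Type u} [NormedAddCommGroup A] [NormedSpace ℂ A] (E : Set ℕ) (c : ℕ → ℂ)
    (T : A → A) (S : Set A) : Prop :=
  ∀ f : ℤ → A, IsOrbit T f → f 0 ∈ closure (Submodule.span ℂ S : Set A) → SeqDisjoint E c f

/-- an automorphism as a map -/
noncomputable def autMap {A : Type u} [NonUnitalCStarAlgebra A] (α : A ≃⋆ₐ[ℂ] A) : A → A := fun x => α x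

/-- a homomorphism as a map -/
noncomputable def homMap {A : Type u} [NonUnitalCStarAlgebra A] {B : Type v} [CStarAlgebra B]
    (ι : A →⋆ₙₐ[ℂ] B) : A → B := fun x => ι x

/-- (2) Let `α` be an automorphism of the C*-algebra `A`, embedded in a unital C*-algebra. The orbits
of all points of the closed linear span of `NullTwist` are disjoint from `c`. -/
def SpanStatement (E : Set ℕ) (c : ℕ → ℂ) : Prop :=
  ∀ (A : Type u) [NonUnitalCStarAlgebra A] (B : Type v) [CStarAlgebra B] (α : A ≃⋆ₐ[ℂ] A)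
    (ι : A →⋆ₙₐ[ℂ] B), Function.Injective (homMap ι) →
    OrbitsDisjoint E c (autMap α) (NullTwist (autMap α) (homMap ι))

/-- (2') In particular, if `α` is implemented by a unitary whose spectrum has measure zero, then the
orbits of all points are disjoint from `c`. -/
def ImplementedStatement (E : Set ℕ) (c : ℕ → ℂ) : Prop :=
  ∀ (A : Type u) [NonUnitalCStarAlgebra A] (B : Type v) [CStarAlgebra B] (α : A ≃⋆ₐ[ℂ] A)
    (ι : A →⋆ₙₐ[ℂ] B) (w : unitary B), Function.Injective (homMap ι) →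
    Implements w (autMap α) (homMap ι) → volume (circleSpectrum w) = 0 →
    OrbitsDisjoint E c (autMap α) Set.univ

/-- (3) All inner automorphisms of unital C*-algebras by unitaries with spectrum in `K` are disjoint
from the Möbius function in logarithmic average, for all bounded functionals. -/
def AllDisjoint (K : Set UnitAddCircle) : Prop :=
  ∀ (B : Type) [CStarAlgebra B] (w : unitary B), circleSpectrum w ⊆ K → ∀ (a : B) (ρ : B →L[ℂ] ℂ),
    Tendsto (fun X : ℕ => (1 / (Real.log X : ℂ)) * ∑ n ∈ Icc 1 X, mu n / n *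
      ρ (pw w n * a * pw w (-n))) atTop (𝓝 0)

/-- (4) For a set `K` of positive measure `m` there are unitaries `w`, `v`, where `w` has its
spectrum in `K`, and a state `ρ`, such that for each uncorrelated `c` there is a contraction `a` for
which the sum of `c n wⁿ a vⁿ` has norm at least `m ^ (1/2)` times the sum of `‖c n‖ ^ 2` (so that
the constant in (1) is best possible), and for which the sum of `c n ρ(wⁿ a w⁻ⁿ)` is `m` times the
sum of `‖c n‖ ^ 2` up to `ε N`, outside `E`. -/
def Sharp (K : Set UnitAddCircle) : Prop :=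
  ∃ (B : Type) (_ : CStarAlgebra B) (w v : unitary B) (ρ : B →L[ℂ] ℂ), circleSpectrum w ⊆ K ∧
    ‖ρ‖ ≤ 1 ∧ ρ 1 = 1 ∧ ∀ (E : Set ℕ) (c : ℕ → ℂ), Uncorrelated E c → ∃ a : B, ‖a‖ ≤ 1 ∧
      (∀ N : ℕ, √(volume K).toReal * ∑ n ∈ Icc 1 N, ‖c n‖ ^ 2 ≤
        ‖wsum c 0 (fun n => pw w n * a * pw v n) N‖) ∧
      ∀ ε : ℝ, 0 < ε → ∀ᶠ N : ℕ in outside E,
        ‖∑ n ∈ Icc 1 N, c n * ρ (pw w n * a * pw w (-n)) -
          (((volume K).toReal * ∑ n ∈ Icc 1 N, ‖c n‖ ^ 2 : ℝ) : ℂ)‖ ≤ ε * N

open Pool.Agent.E8helper86.NS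
open scoped InnerProductSpace

theorem corrZero_iff {E : Set ℕ} {c : ℕ → ℂ} : CorrZero E c ↔ ∀ h : ℕ, 1 ≤ h →
    Tendsto (fun N : ℕ => (1 / (N : ℂ)) * ∑ n ∈ Icc 1 N, star (c n) * c (n + h)) (outside E) (𝓝 0) := by
  have hpos : ∀ᶠ N : ℕ in Lf E, 1 ≤ N := (eventually_ge_atTop 1).filter_mono inf_le_left
  constructor
  · intro hc h hh
    rw [Metric.tendsto_nhds]
    intro ε hε
    have h1 : ∀ᶠ N : ℕ in Lf E, ‖∑ n ∈ Icc 1 N, star (c n) * c (n + h)‖ ≤ ε / 2 * N :=
      ev_Lf.2 (hc h hh (ε / 2) (by positivity))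
    show ∀ᶠ N : ℕ in Lf E, _
    filter_upwards [h1, hpos] with N h2 h3
    have hN : (0 : ℝ) < N := by exact_mod_cast h3
    rw [dist_zero_right, norm_mul, norm_div, norm_one, Complex.norm_natCast, one_div, ← div_eq_inv_mul,
      div_lt_iff₀ hN]
    nlinarith
  · intro hc h hh δ hδ
    have h1 := (Metric.tendsto_nhds.1 (hc h hh)) δ hδ
    have h2 : ∀ᶠ N : ℕ in Lf E, ‖∑ n ∈ Icc 1 N, star (c n) * c (n + h)‖ ≤ δ * N := by
      have h1' : ∀ᶠ N : ℕ in Lf E, dist ((1 / (N : ℂ)) * ∑ n ∈ Icc 1 N, star (c n) * c (n + h)) 0 < δ := h1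
      filter_upwards [h1', hpos] with N h2 h3
      have hN : (0 : ℝ) < N := by exact_mod_cast h3
      rw [dist_zero_right, norm_mul, norm_div, norm_one, Complex.norm_natCast, one_div, ← div_eq_inv_mul,
        div_lt_iff₀ hN] at h2
      exact h2.le
    exact ev_Lf.1 h2

theorem part_E : ∃ E : Set ℕ, LogDensityZero E ∧ Uncorrelated E mu ∧ Uncorrelated E lam := by
  obtain ⟨E, h1, h2, h3⟩ := exc
  refine ⟨E, h1, ⟨fun n => ?_, corrZero_iff.1 h2⟩, ⟨fun n => ?_, corrZero_iff.1 h3⟩⟩
  · unfold mu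
    have h1 : |ArithmeticFunction.moebius n| ≤ 1 := ArithmeticFunction.abs_moebius_le_one
    rw [Complex.norm_intCast]
    exact_mod_cast h1
  · unfold lam
    push_cast
    rw [norm_pow, norm_neg, norm_one, one_pow]

theorem sum_cut {M : Type*} [NormedAddCommGroup M] [NormedSpace ℂ M] (c : ℕ → ℂ) (θ : ℝ) (N : ℕ) (F : ℤ → M) :
    ∑ n ∈ Icc (1 : ℤ) N, cut c (θ : UnitAddCircle) N n • F n = wsum c θ F N := by
  rw [sum_int_nat]
  refine Finset.sum_congr rfl fun n hn => ?_
  rw [cut_at c θ hn]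
  rfl

theorem part1 {K : Set UnitAddCircle} (hK : IsClosed K) {E : Set ℕ} {c : ℕ → ℂ} (hc : Uncorrelated E c) :
    SequenceBound.{u} K E c := by
  intro ε hε
  have hE := corrZero_iff.2 hc.2
  show ∀ᶠ N : ℕ in Lf E, _
  filter_upwards [seq_main_banach.{u} K hK hc.1 hE ε hε, seq_main.{u} K hK hc.1 hE ε hε] with N h1 h2
  constructor
  · intro Y _ _ _ f θ hf hfK
    have h3 := h1 Y f (θ : UnitAddCircle) hf hfK
    rw [sum_cut] at h3
    exact h3
  · intro B _ f v θ hf hfK
    obtain ⟨h3, h4⟩ := h2 B f v (θ : UnitAddCircle) hf hfK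
    rw [sum_cut c θ N (fun n : ℤ => f n * ((v ^ n : unitary B) : B))] at h3
    rw [sum_cut c θ N (fun n : ℤ => ((v ^ n : unitary B) : B) * f n)] at h4
    exact ⟨h3, h4⟩

theorem orbit_eq {A : Type u} [NonUnitalCStarAlgebra A] {α : A ≃⋆ₐ[ℂ] A} {f : ℤ → A} (hf : IsOrbit α f) (n : ℤ) :
    f n = (α ^ n) (f 0) := by
  induction n using Int.induction_on with
  | zero => simp
  | succ n ih =>
    rw [hf, ih, add_comm, zpow_add, zpow_one]
    rfl
  | pred n ih =>
    have h1 := hf (-(n : ℤ) - 1)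
    rw [sub_add_cancel, ih] at h1
    have h2 : (α ^ (-(n : ℤ))) (f 0) = α ((α ^ (-(n : ℤ) - 1)) (f 0)) := by
      have : α ^ (-(n : ℤ)) = α * α ^ (-(n : ℤ) - 1) := by
        rw [← zpow_one_add]
        congr 1
        ring
      rw [this]
      rfl
    rw [h2] at h1
    exact (α.injective h1).symm

theorem seq_of {A : Type u} [NonUnitalCStarAlgebra A] {E : Set ℕ} {c : ℕ → ℂ} {α : A ≃⋆ₐ[ℂ] A} {f : ℤ → A}
    (hf : IsOrbit α f) (hLZ : LogDensityZero E) (hc : Uncorrelated E c) (h : PN E c α (f 0)) : SeqDisjoint E c f := by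
  have e : ∀ n : ℕ, (α ^ n) (f 0) = f n := fun n => by rw [orbit_eq hf n, zpow_natCast]
  have h1 : ∀ θ N, twa c θ α (f 0) N = wsum c θ f N := by
    intro θ N
    unfold twa wsum
    refine Finset.sum_congr rfl fun n _ => ?_
    rw [e]
    rfl
  have h2 : ∀ θ N, twl c θ α (f 0) N = wsum (fun n => c n / n) θ f N := by
    intro θ N
    unfold twl wsum
    refine Finset.sum_congr rfl fun n _ => ?_
    rw [e]
    congr 1
    unfold phase
    ring
  refine ⟨fun ε hε => ?_, fun ε hε => ?_, fun ρ => ?_⟩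
  · have h3 := h ε hε
    simp_rw [h1] at h3
    exact h3
  · have h3 := PL_of hLZ hc.1 h ε hε
    simp_rw [h2] at h3
    exact h3
  · have h3 := fun_of hLZ hc.1 h ρ
    simp_rw [e] at h3
    exact h3

theorem twist_PN {A : Type u} [NonUnitalCStarAlgebra A] {B : Type v} [CStarAlgebra B] {E : Set ℕ} {c : ℕ → ℂ}
    {α : A ≃⋆ₐ[ℂ] A} {ι : A →⋆ₙₐ[ℂ] B} (hι : Function.Injective ι) (hc : Uncorrelated E c) {x : A}
    (hx : x ∈ NullTwist α ι) : PN E c α x := by
  obtain ⟨f, w, K, hf0, hf, hK, hK0, hs⟩ := hx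
  intro ε hε
  filter_upwards [twist_unif.{u, v} K hK hK0 hc.1 (corrZero_iff.2 hc.2) (ε / (‖x‖ + 1)) (by positivity)]
    with N hN θ
  have hs' : Pool.Agent.TH327.Thin.SpecIn K (fun n : ℤ => ι ((α ^ n) x) * ((w ^ n : unitary B) : B)) := by
    have e : (fun n : ℤ => ι ((α ^ n) x) * ((w ^ n : unitary B) : B)) = fun n : ℤ => ι (f n) * pw w n := by
      funext n
      rw [orbit_eq hf n, hf0]
      rfl
    rw [e]
    exact hs
  refine (hN A B α ι w x θ hι hs').trans ?_
  calc ε / (‖x‖ + 1) * N * ‖x‖ = ε * N * (‖x‖ / (‖x‖ + 1)) := by ring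
    _ ≤ ε * N * 1 := by
        gcongr
        rw [div_le_one (by positivity)]
        linarith
    _ = ε * N := mul_one _

theorem part2 {E : Set ℕ} {c : ℕ → ℂ} (hLZ : LogDensityZero E) (hc : Uncorrelated E c) :
    SpanStatement.{u, v} E c := by
  intro A _ B _ α ι hι f hf h
  exact seq_of hf hLZ hc (PN_closed hc.1 (fun y hy => twist_PN hι hc hy) h)

theorem part2' {E : Set ℕ} {c : ℕ → ℂ} (hLZ : LogDensityZero E) (hc : Uncorrelated E c) :
    ImplementedStatement.{u, v} E c := by
  intro A _ B _ α ι w hι hw hw0 f hf _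
  apply seq_of hf hLZ hc
  apply twist_PN hι hc
  have hw' : ∀ x, ι (α x) = (w : B) * ι x * star (w : B) := by
    intro x
    have hx : ι (α x) * (w : B) = w * ι x := hw x
    rw [← hx, mul_assoc, Unitary.mul_star_self_of_mem w.2, mul_one]
  refine ⟨f, w, circleSpectrum w, rfl, hf, uspec_closed w, hw0, ?_⟩
  have e : (fun n : ℤ => ι ((α ^ n) (f 0)) * ((w ^ n : unitary B) : B)) = fun n : ℤ => ι (f n) * pw w n := by
    funext n
    rw [orbit_eq hf n]
    rfl
  rw [← e]
  exact specIn_impl hw' (f 0)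

theorem mu_le (n : ℕ) : ‖((ArithmeticFunction.moebius n : ℤ) : ℂ)‖ ≤ 1 := by
  have h1 : |ArithmeticFunction.moebius n| ≤ 1 := ArithmeticFunction.abs_moebius_le_one
  rw [Complex.norm_intCast]
  exact_mod_cast h1

theorem pw_star {B : Type u} [CStarAlgebra B] (w : unitary B) (n : ℕ) : pw w (-(n : ℤ)) = star (w : B) ^ n := by
  unfold pw
  rw [zpow_neg, zpow_natCast, ← inv_pow]
  rfl

theorem pw_nat {B : Type u} [CStarAlgebra B] (w : unitary B) (n : ℕ) : pw w (n : ℤ) = (w : B) ^ n := by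
  unfold pw
  rw [zpow_natCast]
  rfl

theorem part3 {K : Set UnitAddCircle} (hK : IsClosed K) : volume K = 0 ↔ AllDisjoint K := by
  constructor
  · intro hK0 B _ w hw a ρ
    obtain ⟨E, hLZ, hmu, -⟩ := part_E
    have h1 := part1.{0} hK hmu
    have hseq : SpectrumIn K (fun n : ℤ => pw w n * a) := specIn_pow_mul w hw a
    -- the inner automorphism
    let α : B ≃⋆ₐ[ℂ] B :=
      { toFun := fun x => (w : B) * x * star (w : B)
        invFun := fun x => star (w : B) * x * (w : B)
        left_inv := fun x => by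
          show star (w : B) * ((w : B) * x * star (w : B)) * (w : B) = x
          have e1 : star (w : B) * (w : B) = 1 := Unitary.star_mul_self_of_mem w.2
          calc _ = (star (w : B) * (w : B)) * x * (star (w : B) * (w : B)) := by simp only [mul_assoc]
            _ = x := by rw [e1, one_mul, mul_one]
        right_inv := fun x => by
          show (w : B) * (star (w : B) * x * (w : B)) * star (w : B) = x
          have e1 : (w : B) * star (w : B) = 1 := Unitary.mul_star_self_of_mem w.2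
          calc _ = ((w : B) * star (w : B)) * x * ((w : B) * star (w : B)) := by simp only [mul_assoc]
            _ = x := by rw [e1, one_mul, mul_one]
        map_mul' := fun x y => by
          show (w : B) * (x * y) * star (w : B) = ((w : B) * x * star (w : B)) * ((w : B) * y * star (w : B))
          have e1 : star (w : B) * (w : B) = 1 := Unitary.star_mul_self_of_mem w.2
          calc (w : B) * (x * y) * star (w : B) = (w : B) * x * 1 * y * star (w : B) := by
                rw [mul_one]; simp only [mul_assoc]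
            _ = _ := by rw [← e1]; simp only [mul_assoc]
        map_add' := fun x y => by
          show (w : B) * (x + y) * star (w : B) = (w : B) * x * star (w : B) + (w : B) * y * star (w : B)
          rw [mul_add, add_mul]
        map_smul' := fun z x => by
          show (w : B) * (z • x) * star (w : B) = z • ((w : B) * x * star (w : B))
          rw [mul_smul_comm, smul_mul_assoc]
        map_star' := fun x => by
          show (w : B) * star x * star (w : B) = star ((w : B) * x * star (w : B))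
          rw [star_mul, star_mul, star_star, mul_assoc] }
    have hα : ∀ x, α x = (w : B) * x * star (w : B) := fun x => rfl
    have h2 := part2'.{0, 0} hLZ hmu B B α (NonUnitalStarAlgHom.id ℂ B) w Function.injective_id (fun x => by
        show α x * (w : B) = w * x
        rw [hα, mul_assoc, Unitary.star_mul_self_of_mem w.2, mul_one]) (measure_mono_null hw hK0) (fun n => (α ^ n) a)
      (fun n => by
        show (α ^ (n + 1)) a = α ((α ^ n) a)
        rw [add_comm, zpow_add, zpow_one]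
        rfl) (subset_closure (Submodule.subset_span (Set.mem_univ _)))
    have h3 := (h2.2.2 ρ).2
    refine h3.congr fun X => ?_
    congr 1
    refine Finset.sum_congr rfl fun n _ => ?_
    have h4 := auto_pow (α := α) (ι := NonUnitalStarAlgHom.id ℂ B) (w := w) (fun x => rfl) n a
    have h5 : (α ^ (n : ℤ)) a = pw w n * a * pw w (-n) := by
      rw [zpow_natCast, pw_nat, pw_star]
      exact h4
    show mu n / n * ρ ((α ^ (n : ℤ)) a) = _
    rw [h5]
  · intro h
    refine (char_null K hK).2 fun H _ _ _ w hw a ρ => ?_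
    have h1 := h (H →L[ℂ] H) w hw a ρ
    refine h1.congr fun X => ?_
    congr 1
    refine Finset.sum_congr rfl fun n _ => ?_
    rw [pw_nat, pw_star]
    rfl

theorem part4 {K : Set UnitAddCircle} (hK : IsClosed K) (hK0 : volume K ≠ 0) : Sharp K := by
  have hm : 0 < ν.real K := by
    rw [measureReal_def]
    rw [vol_nu] at hK0
    exact ENNReal.toReal_pos hK0 (measure_ne_top _ _)
  have hv : (volume K).toReal = ν.real K := by rw [vol_nu]; rfl
  obtain ⟨x₀, hx₀⟩ : K.Nonempty := by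
    rw [Set.nonempty_iff_ne_empty]
    rintro rfl
    exact hK0 (measure_empty)
  have hu := unitInd_norm hK hm
  refine ⟨L2T →L[ℂ] L2T, inferInstance, wop hK x₀, vop, (innerSL ℂ (unitInd hK)).comp
      (ContinuousLinearMap.apply ℂ L2T (unitInd hK)), wop_spec hK hx₀, ?_, ?_,
      fun E c hc => ⟨fmul (bb c) (bb_le hc.1), fmul_norm _ _, fun N => ?_, fun ε hε => ?_⟩⟩
  · apply ContinuousLinearMap.opNorm_le_bound _ zero_le_one
    intro T
    show ‖⟪unitInd hK, T (unitInd hK)⟫_ℂ‖ ≤ 1 * ‖T‖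
    refine (norm_inner_le_norm _ _).trans ?_
    rw [hu]
    have := T.le_opNorm (unitInd hK)
    rw [hu, mul_one] at this
    linarith
  · show ⟪unitInd hK, (1 : L2T →L[ℂ] L2T) (unitInd hK)⟫_ℂ = 1
    have h1 : (1 : L2T →L[ℂ] L2T) (unitInd hK) = unitInd hK := rfl
    rw [h1, inner_self_eq_norm_sq_to_K, hu]
    simp
  · rw [hv]
    refine (sharp_pair hK x₀ hc.1 N).trans (le_of_eq ?_)
    congr 1
    unfold wsum
    refine Finset.sum_congr rfl fun n _ => ?_
    show _ = (c n * phase n 0) • (pw (wop hK x₀) (n : ℤ) * fmul (bb c) (bb_le hc.1) * pw vop (n : ℤ))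
    rw [pw_nat, pw_nat]
    congr 1
    unfold phase
    simp
  · rw [hv]
    filter_upwards [sharp_asym hK x₀ hm hc.1 (corrZero_iff.2 hc.2) ε hε] with N hN
    refine le_trans (le_of_eq ?_) hN
    congr 2
    refine Finset.sum_congr rfl fun n _ => ?_
    rw [pw_nat, pw_star]
    rfl

/-- **Disjointness for spectra of measure zero.** (A) There is a set of logarithmic density zero
outside of which the Möbius and the Liouville function are uncorrelated with their shifts. (B) The
bounds for uncorrelated sequences. (C) The converse: the null sets are characterized by Möbius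
disjointness of inner automorphisms, and the bound in (B) is best possible. -/
theorem result :
    (∃ E : Set ℕ, LogDensityZero E ∧ Uncorrelated E mu ∧ Uncorrelated E lam) ∧
    (∀ (E : Set ℕ) (c : ℕ → ℂ), Uncorrelated E c →
      (∀ K : Set UnitAddCircle, IsClosed K → SequenceBound.{u} K E c) ∧
      (LogDensityZero E → SpanStatement.{u, v} E c ∧ ImplementedStatement.{u, v} E c)) ∧
    ∀ K : Set UnitAddCircle, IsClosed K → (volume K = 0 ↔ AllDisjoint K) ∧ (volume K ≠ 0 → Sharp K) :=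
  ⟨part_E, fun _ _ hc => ⟨fun _ hK => part1 hK hc, fun hLZ => ⟨part2 hLZ hc, part2' hLZ hc⟩⟩,
    fun _ hK => ⟨part3 hK, part4 hK⟩⟩

end Pool.Agent.Results.MP_7a8f48_an.NullSpectrumH86
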