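import Pool.Agent.R296.SM.NormU
import Pool.Agent.E8helper86.NS.Tw
import Pool.Agent.E8helper86.NS.Log
import Pool.Agent.E8helper86.SS.Iso

/-!
# Automorphisms of C*-algebras whose invariant functionals have singular spectral measures

Let `α` be an automorphism of a C*-algebra and let `D` be a set of elements `x` with closed span the whole
algebra. If for each invariant positive functional the spectral measures of the elements of `D` are singular
(with respect to Lebesgue measure), then the orbits of all elements are disjoint in norm from the Möbius and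
the Liouville function, on logarithmic average and at almost all scales. No assumption on entropy is made.
There are local versions: for a bounded set of vectors of a representation, or of positive functionals, only
the invariant cluster points of the averages of these vectors or functionals have to be considered.

The proof combines the criterion of the starting modules `Pool.Agent.R296.SM` (the orbit `π(αⁿ x) ξ` is
disjoint from a sequence if the exponential sums of the sequence are small in mean square near the carrier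
of the spectral measures of `x` for the cluster points) with the fact that the exponential sums of a sequence
without self correlations are small in mean square on small neighbourhoods of each closed null set, for the
exceptional set `E` of two-point correlations (Tao, Tao-Teräväinen).
-/

set_option autoImplicit false

open Filter Topology Finset MeasureTheory

namespace Pool.Agent.Results.MP_7a8f48_an.SingularStatesH86

universe u v

open Classical in
/-- `E` has logarithmic density zero -/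
def LogDensityZero (E : Set ℕ) : Prop :=
  Tendsto (fun X : ℕ => (∑ n ∈ Icc 1 X, if n ∈ E then (1 : ℝ) / n else 0) / Real.log X) atTop (𝓝 0)

/-- the large numbers outside `E` -/
def outside (E : Set ℕ) : Filter ℕ := atTop ⊓ 𝓟 Eᶜ

/-- `c` is bounded by one and its self correlations tend to zero outside `E` -/
def Uncorrelated (E : Set ℕ) (c : ℕ → ℂ) : Prop :=
  (∀ n, ‖c n‖ ≤ 1) ∧ ∀ h : ℕ, 1 ≤ h →
    Tendsto (fun N : ℕ => (1 / (N : ℂ)) * ∑ n ∈ Icc 1 N, star (c n) * c (n + h)) (outside E) (𝓝 0)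

/-- the Möbius function -/
noncomputable def mu (n : ℕ) : ℂ := ((ArithmeticFunction.moebius n : ℤ) : ℂ)

/-- the Liouville function -/
noncomputable def lam (n : ℕ) : ℂ := (((-1) ^ ArithmeticFunction.cardFactors n : ℤ) : ℂ)

/-- an automorphism as a map -/
noncomputable def autMap {A : Type u} [NonUnitalCStarAlgebra A] (α : A ≃⋆ₐ[ℂ] A) : A → A := fun x => α x

/-- a bounded functional as a map -/
noncomputable def valMap {A : Type u} [NonUnitalCStarAlgebra A] (φ : A →L[ℂ] ℂ) : A → ℂ := fun x => φ x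

/-- a representation as a map -/
noncomputable def repMap {A : Type u} [NonUnitalCStarAlgebra A] {K : Type v} [NormedAddCommGroup K]
    [InnerProductSpace ℂ K] [CompleteSpace K] (π : A →⋆ₙₐ[ℂ] (K →L[ℂ] K)) : A → K → K := fun x ζ => π x ζ

/-- positive functionals -/
def Positive {A : Type u} [NonUnitalCStarAlgebra A] (f : A → ℂ) : Prop :=
  ∀ a, 0 ≤ (f (star a * a)).re ∧ (f (star a * a)).im = 0

/-- `f` is invariant under the map `T` -/
def Invariant {A : Type u} (T : A → A) (f : A → ℂ) : Prop := ∀ a, f (T a) = f a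

/-- `f` is a cluster point (for pointwise convergence), for `N → ∞`, of the averages
`(1/N) ∑_{n ≤ N} ρ ∘ Tⁿ` of the elements `ρ` of `R` -/
def ClusterPoint {A : Type u} (T : A → A) (R : Set (A → ℂ)) (f : A → ℂ) : Prop :=
  ∀ (F : Finset A) (ε : ℝ), 0 < ε → ∀ N₀ : ℕ, ∃ N ≥ N₀, ∃ ρ ∈ R, ∀ a ∈ F,
    ‖(1 / (N : ℂ)) * ∑ n ∈ Icc 1 N, ρ (T^[n] a) - f a‖ < ε

/-- The spectral measure of `x` for the invariant positive functional `f`, the finite measure on `ℝ/ℤ` with
`f (x* Tᵏ(x)) = ∫ exp(2 π i k η) dσ(η)` for `k ≥ 0`, is singular. -/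
def SingularAt {A : Type u} [NonUnitalCStarAlgebra A] (T : A → A) (f : A → ℂ) (x : A) : Prop :=
  ∃ σ : Measure UnitAddCircle, IsFiniteMeasure σ ∧
    (∀ k : ℕ, f (star x * T^[k] x) = ∫ η, (fourier (k : ℤ) η : ℂ) ∂σ) ∧ σ ⟂ₘ volume

/-- the closed linear span -/
def closedSpan {A : Type u} [NonUnitalCStarAlgebra A] (D : Set A) : Set A :=
  closure (Submodule.span ℂ D : Set A)

/-- the sum of `c m e(mθ) y m` over the `m` in `S`, where `e(t) = exp(2 π i t)` -/
noncomputable def twistedSum {X : Type v} [NormedAddCommGroup X] [NormedSpace ℂ X] (c : ℕ → ℂ) (θ : ℝ)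
    (S : Finset ℕ) (y : ℕ → X) : X :=
  ∑ m ∈ S, (c m * Complex.exp (2 * Real.pi * Complex.I * m * θ)) • y m

/-- The sequences `y i` are disjoint from `c`, uniformly in `i` and in the twist: for `N` outside `E`, in mean
square over the windows of length `H` below `N`, where `H` and `N / H` are large, and for the long averages;
and, if `E` has logarithmic density zero, for the logarithmic averages, without exceptions. -/
def UniformlyDisjoint {ι : Type u} {X : Type v} [NormedAddCommGroup X] [NormedSpace ℂ X] (E : Set ℕ)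
    (c : ℕ → ℂ) (y : ι → ℕ → X) : Prop :=
  ∀ ε : ℝ, 0 < ε →
    (∃ H0 : ℕ, ∀ H ≥ H0, ∀ N ≥ H0 * H, N ∉ E → ∀ (θ : ℝ) (i : ι),
      ∑ n ∈ range N, ‖twistedSum c θ (Ioc n (n + H)) (y i)‖ ^ 2 ≤ ε * H ^ 2 * N) ∧
    (∀ᶠ N : ℕ in outside E, ∀ (θ : ℝ) (i : ι), ‖twistedSum c θ (Icc 1 N) (y i)‖ ≤ ε * N) ∧
    (LogDensityZero E → ∀ᶠ X : ℕ in atTop, ∀ (θ : ℝ) (i : ι),
      ‖twistedSum (fun n => c n / n) θ (Icc 1 X) (y i)‖ ≤ ε * Real.log X)

/-- the twisted sum of `Tᵐ(x)` over the `m` in `S` -/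
noncomputable def orbitSum {A : Type u} [NonUnitalCStarAlgebra A] (T : A → A) (c : ℕ → ℂ) (θ : ℝ)
    (S : Finset ℕ) (x : A) : A :=
  twistedSum c θ S (fun m => T^[m] x)

/-- the sum of `W(n)* W(n)` over `n < N`, where `W(n)` is the twisted sum over the window `(n, n + H]` -/
noncomputable def windowSquares {A : Type u} [NonUnitalCStarAlgebra A] (T : A → A) (c : ℕ → ℂ) (θ : ℝ)
    (H N : ℕ) (x : A) : A :=
  ∑ n ∈ range N, star (orbitSum T c θ (Ioc n (n + H)) x) * orbitSum T c θ (Ioc n (n + H)) x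

/-- The orbit of `x` is disjoint from `c` in norm, uniformly in the twist: as in `UniformlyDisjoint`, with the
norm of `∑_{n < N} W(n)* W(n)` for the windows. -/
def NormDisjoint {A : Type u} [NonUnitalCStarAlgebra A] (T : A → A) (E : Set ℕ) (c : ℕ → ℂ) (x : A) :
    Prop :=
  ∀ ε : ℝ, 0 < ε →
    (∃ H0 : ℕ, ∀ H ≥ H0, ∀ N ≥ H0 * H, N ∉ E → ∀ θ : ℝ, ‖windowSquares T c θ H N x‖ ≤ ε * H ^ 2 * N) ∧
    (∀ᶠ N : ℕ in outside E, ∀ θ : ℝ, ‖orbitSum T c θ (Icc 1 N) x‖ ≤ ε * N) ∧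
    (LogDensityZero E → ∀ᶠ X : ℕ in atTop, ∀ θ : ℝ,
      ‖orbitSum T (fun n => c n / n) θ (Icc 1 X) x‖ ≤ ε * Real.log X)

/-- For all bounded functionals `ρ` and all `x` the averages of `c n ρ(Tⁿ x)` tend to zero outside `E`, and, if
`E` has logarithmic density zero, the logarithmic averages tend to zero. -/
def FunctionalsDisjoint {A : Type u} [NonUnitalCStarAlgebra A] (T : A → A) (E : Set ℕ) (c : ℕ → ℂ) :
    Prop :=
  ∀ (x : A) (ρ : A →L[ℂ] ℂ),
    Tendsto (fun N : ℕ => (1 / (N : ℂ)) * ∑ n ∈ Icc 1 N, c n * valMap ρ (T^[n] x)) (outside E) (𝓝 0) ∧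
    (LogDensityZero E → Tendsto (fun X : ℕ => (1 / (Real.log X : ℂ)) *
      ∑ n ∈ Icc 1 X, c n / n * valMap ρ (T^[n] x)) atTop (𝓝 0))

/-- the vector functionals `a ↦ ⟨ξ, π(a) ξ⟩` of the `ξ` in `Ξ` -/
def VectorFunctionals {A : Type u} {K : Type v} [NormedAddCommGroup K] [InnerProductSpace ℂ K]
    (π : A → K → K) (Ξ : Set K) : Set (A → ℂ) :=
  {ρ | ∃ ξ ∈ Ξ, ρ = fun a => (inner ℂ ξ (π a ξ) : ℂ)}

/-- (1) Let `Ξ` be a bounded set of vectors of a representation `π` and let `D` be a set of elements whose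
spectral measures are singular for each invariant cluster point of the averages of the vector functionals of
the `ξ` in `Ξ`. Then the sequences of vectors `π(αⁿ(x)) ξ` are disjoint from `c`, uniformly for `ξ` in `Ξ`,
for each `x` in the closed span of `D`. -/
def VectorStatement (E : Set ℕ) (c : ℕ → ℂ) : Prop :=
  ∀ (A : Type u) [NonUnitalCStarAlgebra A] (α : A ≃⋆ₐ[ℂ] A)
    (K : Type v) [NormedAddCommGroup K] [InnerProductSpace ℂ K] [CompleteSpace K]
    (π : A →⋆ₙₐ[ℂ] (K →L[ℂ] K)) (Ξ : Set K) (R : ℝ) (D : Set A), (∀ ξ ∈ Ξ, ‖ξ‖ ≤ R) →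
    (∀ φ : A →L[ℂ] ℂ, Positive (valMap φ) → Invariant (autMap α) (valMap φ) →
      ClusterPoint (autMap α) (VectorFunctionals (repMap π) Ξ) (valMap φ) →
      ∀ x ∈ D, SingularAt (autMap α) (valMap φ) x) →
    ∀ x ∈ closedSpan D,
      UniformlyDisjoint E c (fun (ξ : Ξ) n => repMap π ((autMap α)^[n] x) ξ.1)

/-- (2) Let `S` be a bounded set of positive functionals on a unital algebra and let `D` be a set of elements
whose spectral measures are singular for each invariant cluster point of the averages of the `ρ` in `S`. Then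
`ρ(b βⁿ(x))` is disjoint from `c`, uniformly for `ρ` in `S` and `b` in the unit ball, for each `x` in the
closed span of `D`. -/
def PositiveStatement (E : Set ℕ) (c : ℕ → ℂ) : Prop :=
  ∀ (B : Type u) [CStarAlgebra B] (β : B ≃⋆ₐ[ℂ] B)
    (S : Set (B →L[ℂ] ℂ)) (R : ℝ) (D : Set B), (∀ ρ ∈ S, Positive (valMap ρ) ∧ ‖ρ‖ ≤ R) →
    (∀ φ : B →L[ℂ] ℂ, Positive (valMap φ) → Invariant (autMap β) (valMap φ) →
      ClusterPoint (autMap β) (valMap '' S) (valMap φ) → ∀ x ∈ D, SingularAt (autMap β) (valMap φ) x) →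
    ∀ x ∈ closedSpan D, UniformlyDisjoint E c
      (fun (p : S × {b : B // ‖b‖ ≤ 1}) n => valMap p.1.1 (p.2.1 * (autMap β)^[n] x))

/-- (3) Let `D` be a set such that the spectral measures of the elements of `D` are singular for each
invariant positive functional. Then the orbit of each element of the closed span of `D` is disjoint from `c`
in norm; if the span of `D` is dense, the averages along all orbits tend to zero for all bounded
functionals. -/
def NormStatement (E : Set ℕ) (c : ℕ → ℂ) : Prop :=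
  ∀ (A : Type u) [NonUnitalCStarAlgebra A] (α : A ≃⋆ₐ[ℂ] A) (D : Set A),
    (∀ φ : A →L[ℂ] ℂ, Positive (valMap φ) → Invariant (autMap α) (valMap φ) →
      ∀ x ∈ D, SingularAt (autMap α) (valMap φ) x) →
    (∀ x ∈ closedSpan D, NormDisjoint (autMap α) E c x) ∧
    (closedSpan D = Set.univ → FunctionalsDisjoint (autMap α) E c)

open Pool.Agent.R296.SM Pool.Agent.E8helper86.NS Pool.Agent.E8helper86.SS

theorem corrZero_iff {E : Set ℕ} {c : ℕ → ℂ} : CorrZero E c ↔ ∀ h : ℕ, 1 ≤ h →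
    Tendsto (fun N : ℕ => (1 / (N : ℂ)) * ∑ n ∈ Icc 1 N, star (c n) * c (n + h)) (outside E) (𝓝 0) := by
  have hpos : ∀ᶠ N : ℕ in Lf E, 1 ≤ N := (eventually_ge_atTop 1).filter_mono inf_le_left
  constructor
  · intro hc h hh
    rw [Metric.tendsto_nhds]
    intro ε hε
    have h1 : ∀ᶠ N : ℕ in Lf E, ‖∑ n ∈ Icc 1 N, star (c n) * c (n + h)‖ ≤ ε / 2 * N :=
      ev_Lf.2 (hc h hh (ε / 2) (by positivity))
    show ∀ᶠ N : ℕ in Lf E, _
    filter_upwards [h1, hpos] with N h2 h3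
    have hN : (0 : ℝ) < N := by exact_mod_cast h3
    rw [dist_zero_right, norm_mul, norm_div, norm_one, Complex.norm_natCast, one_div, ← div_eq_inv_mul,
      div_lt_iff₀ hN]
    nlinarith
  · intro hc h hh δ hδ
    have h1 := (Metric.tendsto_nhds.1 (hc h hh)) δ hδ
    have h2 : ∀ᶠ N : ℕ in Lf E, ‖∑ n ∈ Icc 1 N, star (c n) * c (n + h)‖ ≤ δ * N := by
      have h1' : ∀ᶠ N : ℕ in Lf E, dist ((1 / (N : ℂ)) * ∑ n ∈ Icc 1 N, star (c n) * c (n + h)) 0 < δ := h1
      filter_upwards [h1', hpos] with N h2 h3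
      have hN : (0 : ℝ) < N := by exact_mod_cast h3
      rw [dist_zero_right, norm_mul, norm_div, norm_one, Complex.norm_natCast, one_div, ← div_eq_inv_mul,
        div_lt_iff₀ hN] at h2
      exact h2.le
    exact ev_Lf.1 h2

theorem part_E : ∃ E : Set ℕ, LogDensityZero E ∧ Uncorrelated E mu ∧ Uncorrelated E lam := by
  obtain ⟨E, h1, h2, h3⟩ := exc
  refine ⟨E, h1, ⟨fun n => ?_, corrZero_iff.1 h2⟩, ⟨fun n => ?_, corrZero_iff.1 h3⟩⟩
  · unfold mu
    have h1 : |ArithmeticFunction.moebius n| ≤ 1 := ArithmeticFunction.abs_moebius_le_one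
    rw [Complex.norm_intCast]
    exact_mod_cast h1
  · unfold lam
    push_cast
    rw [norm_pow, norm_neg, norm_one, one_pow]

theorem exp_four (n : ℕ) (θ : ℝ) :
    Complex.exp (2 * Real.pi * Complex.I * n * θ) = (fourier (n : ℤ) (θ : UnitAddCircle) : ℂ) := by
  rw [fourier_coe_apply]
  congr 1
  push_cast
  ring

theorem it_eq {A : Type u} [NonUnitalCStarAlgebra A] (α : A ≃⋆ₐ[ℂ] A) (n : ℕ) (x : A) :
    (autMap α)^[n] x = (α ^ n) x := by
  induction n with
  | zero => rfl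
  | succ n ih =>
    rw [Function.iterate_succ_apply', ih, pow_succ']
    rfl

section conv

variable {K : Type v} [NormedAddCommGroup K] [NormedSpace ℂ K]

theorem conv1 (c : ℕ → ℂ) (θ : ℝ) (w : ℤ → K) (y : ℕ → K) (hy : ∀ n : ℕ, w n = y n) (x H : ℕ) :
    twistedSum c θ (Ioc x (x + H)) y = ∑ m ∈ Ioc (x : ℤ) (x + H),
      ext0 (fun n : ℕ => c n * (fourier (n : ℤ) (θ : UnitAddCircle) : ℂ)) m • w m := by
  unfold twistedSum
  refine sum_nbij' (fun n : ℕ => (n : ℤ)) (fun m : ℤ => m.toNat) ?_ ?_ ?_ ?_ ?_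
  · intro n hn
    rw [mem_Ioc] at hn ⊢
    omega
  · intro m hm
    rw [mem_Ioc] at hm ⊢
    omega
  · intro n _; simp
  · intro m hm
    rw [mem_Ioc] at hm
    omega
  · intro n hn
    rw [mem_Ioc] at hn
    rw [exp_four, ← hy, ext0, if_pos (by omega), Int.toNat_natCast]

theorem conv2 (c : ℕ → ℂ) (θ : ℝ) (w : ℤ → K) (y : ℕ → K) (hy : ∀ n : ℕ, w n = y n) (N : ℕ) :
    twistedSum c θ (Icc 1 N) y = ∑ m ∈ Ioc (0 : ℤ) N,
      ext0 (fun n : ℕ => c n * (fourier (n : ℤ) (θ : UnitAddCircle) : ℂ)) m • w m := by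
  have h1 := conv1 c θ w y hy 0 N
  rw [zero_add] at h1
  have h2 : ((0 : ℕ) : ℤ) = 0 := rfl
  rw [h2, zero_add] at h1
  rw [← h1]
  rfl

end conv

/-- logarithmic averages from the long averages -/
theorem log_of {E : Set ℕ} (hE : LogDensityZero E) {c : ℕ → ℂ} (hc : ∀ n, ‖c n‖ ≤ 1) {ι : Type u} {X : Type v}
    [NormedAddCommGroup X] [NormedSpace ℂ X] (y : ι → ℕ → X) (M : ℝ) (hM : ∀ i n, ‖y i n‖ ≤ M)
    (h : ∀ ε : ℝ, 0 < ε → ∀ᶠ N : ℕ in outside E, ∀ (θ : ℝ) (i : ι), ‖twistedSum c θ (Icc 1 N) (y i)‖ ≤ ε * N)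
    (ε : ℝ) (hε : 0 < ε) : ∀ᶠ T : ℕ in atTop, ∀ (θ : ℝ) (i : ι),
      ‖twistedSum (fun n => c n / n) θ (Icc 1 T) (y i)‖ ≤ ε * Real.log T := by
  obtain ⟨M', hM', hMM⟩ : ∃ M' : ℝ, 0 < M' ∧ M ≤ M' := ⟨|M| + 1, by positivity, by linarith [le_abs_self M]⟩
  have h1 := h (ε / 4) (by positivity)
  obtain ⟨N₀, hN₀⟩ := ev_Lf.1 h1
  obtain ⟨T₀, hT₀⟩ := log_unif hE (ε / (4 * M')) (by positivity) N₀
  refine eventually_atTop.2 ⟨T₀, fun T hT θ i => ?_⟩
  have h2 := hT₀ T hT X (fun n => (c n * Complex.exp (2 * Real.pi * Complex.I * n * θ)) • y i n) M' hM'.le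
    (fun n => by
      rw [norm_smul, norm_mul, exp_four, norm_fourier', mul_one]
      calc ‖c n‖ * ‖y i n‖ ≤ 1 * M := mul_le_mul (hc n) (hM i n) (norm_nonneg _) zero_le_one
        _ ≤ M' := by rw [one_mul]; exact hMM)
    (fun N hN hNE => by
      refine (hN₀ N hN hNE θ i).trans (le_of_eq ?_)
      field_simp)
  have e : twistedSum (fun n => c n / n) θ (Icc 1 T) (y i) =
      ∑ n ∈ Icc 1 T, ((1 / (n : ℝ) : ℝ) : ℂ) • (c n * Complex.exp (2 * Real.pi * Complex.I * n * θ)) • y i n := by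
    unfold twistedSum
    refine sum_congr rfl fun n _ => ?_
    rw [smul_smul]
    congr 1
    push_cast
    ring
  rw [e]
  refine h2.trans (le_of_eq ?_)
  field_simp

theorem disjoint_of_DjU {ι : Type u} {K : Type v} [NormedAddCommGroup K] [InnerProductSpace ℂ K] {E : Set ℕ}
    {c : ℕ → ℂ} (hc : ∀ n, ‖c n‖ ≤ 1) {w : ι → ℤ → K} {M : ℝ} (hM : ∀ i m, ‖w i m‖ ≤ M)
    (hw : DjU E (Tws c) w) (y : ι → ℕ → K) (hy : ∀ i, ∀ n : ℕ, w i n = y i n) :
    UniformlyDisjoint E c y := by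
  have hlong : ∀ ε : ℝ, 0 < ε → ∀ᶠ N : ℕ in outside E, ∀ (θ : ℝ) (i : ι),
      ‖twistedSum c θ (Icc 1 N) (y i)‖ ≤ ε * N := by
    intro ε hε
    obtain ⟨N₀, h2⟩ := hw.long (Tws_le hc) hM ε hε
    refine ev_Lf.2 ⟨N₀, fun N hN hNE θ i => ?_⟩
    rw [conv2 c θ (w i) (y i) (hy i)]
    exact h2 N hN hNE _ ⟨(θ : UnitAddCircle), rfl⟩ i
  intro ε hε
  refine ⟨?_, hlong ε hε, fun hE => log_of hE hc y M (fun i n => by rw [← hy]; exact hM i n) hlong ε hε⟩
  obtain ⟨H₀, -, h1⟩ := hw ε hε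
  refine ⟨H₀, fun H hH N hN hNE θ i => ?_⟩
  refine le_trans (le_of_eq ?_) (h1 H hH N hN hNE _ ⟨(θ : UnitAddCircle), rfl⟩ i)
  refine sum_congr rfl fun x _ => ?_
  rw [conv1 c θ (w i) (y i) (hy i)]

theorem DjU_A {E : Set ℕ} {c : ℕ → ℂ} (hc : Uncorrelated E c) {A : Type u}
    [NonUnitalCStarAlgebra A] (α : A ≃⋆ₐ[ℂ] A) {K : Type v} [NormedAddCommGroup K] [InnerProductSpace ℂ K]
    [CompleteSpace K] (π : A →⋆ₙₐ[ℂ] (K →L[ℂ] K)) {ι : Type v} (Ξ : ι → K) (R : ℝ) (hR : ∀ i, ‖Ξ i‖ ≤ R) (D : Set A)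
    (hD : ∀ φ : A →L[ℂ] ℂ, Positive (valMap φ) → Invariant (autMap α) (valMap φ) →
      CluU α (fun i => rr π (Ξ i)) φ → ∀ x ∈ D, SingularAt (autMap α) (valMap φ) x)
    (x : A) (hx : x ∈ closedSpan D) :
    DjU E (Tws c) (fun i => yy α π (Ξ i) x) := by
  refine DjU_closure α hR (Tws_le hc.1) (fun u hu => ?_) hx
  refine DjU_orbit α hR E _ (Tws_le hc.1) u fun φ h1 h2 h3 => ?_
  obtain ⟨σ, hσ1, hσ2, hσ3⟩ := hD φ (fun a => by
    obtain ⟨e1, e2⟩ := Complex.nonneg_iff.1 (h1 a)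
    exact ⟨e1, e2.symm⟩) h2 h3 u hu
  exact ⟨σ, hσ1, fun k => by
    have := hσ2 k
    rw [it_eq] at this
    exact this, fun δ hδ => isolates_sing σ hσ3 hc.1 (corrZero_iff.2 hc.2) δ hδ⟩

theorem part1 {E : Set ℕ} {c : ℕ → ℂ} (hc : Uncorrelated E c) : VectorStatement.{u, v} E c := by
  intro A _ α K _ _ _ π Ξ R D hR hD x hx
  have hR' : ∀ ξ : Ξ, ‖ξ.1‖ ≤ R := fun ξ => hR ξ.1 ξ.2
  have h1 := DjU_A hc α π (fun ξ : Ξ => ξ.1) R hR' D (fun φ h1 h2 h3 => hD φ h1 h2 (by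
    intro F ε hε N₀
    obtain ⟨N, hN, i, hi⟩ := h3 F ε hε N₀
    refine ⟨N, hN, _, ⟨i.1, i.2, rfl⟩, fun a ha => ?_⟩
    simp_rw [it_eq]
    exact hi a ha)) x hx
  refine disjoint_of_DjU hc.1 (M := R * ‖x‖) (fun ξ m => ?_) h1 _ fun ξ n => ?_
  · exact (yy_le α π ξ.1 x m).trans (mul_le_mul_of_nonneg_right (hR' ξ) (norm_nonneg _))
  · rw [it_eq]
    simp [yy, repMap]

theorem part2 {E : Set ℕ} {c : ℕ → ℂ} (hc : Uncorrelated E c) : PositiveStatement.{u} E c := by
  intro B _ β S R D hR hD x hx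
  obtain ⟨K, _, _, _, π, ξ, hξ⟩ := exists_gnsU B S (fun ρ hρ a => by
    obtain ⟨e1, e2⟩ := (hR ρ hρ).1 a
    exact Complex.nonneg_iff.2 ⟨e1, e2.symm⟩)
  have hone : ‖(1 : B)‖ ≤ 1 := by
    rcases subsingleton_or_nontrivial B with h | h
    · rw [Subsingleton.elim (1 : B) 0, norm_zero]; norm_num
    · rw [CStarRing.norm_one]
  have hn : ∀ ρ : S, ‖ξ ρ‖ ≤ R + 1 := by
    intro ρ
    have h1 : (inner ℂ (ξ ρ) (ξ ρ) : ℂ) = ρ.1 1 := by
      have := hξ ρ 1
      rw [map_one] at this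
      exact this
    rw [inner_self_eq_norm_sq_to_K] at h1
    have h2 : ‖ξ ρ‖ ^ 2 = ‖ρ.1 1‖ := by
      rw [← h1]
      norm_cast
      rw [abs_of_nonneg (sq_nonneg _)]
    have h3 : ‖ρ.1 1‖ ≤ R := by
      refine (ρ.1.le_opNorm 1).trans ?_
      calc ‖ρ.1‖ * ‖(1 : B)‖ ≤ ‖ρ.1‖ * 1 := mul_le_mul_of_nonneg_left hone (norm_nonneg _)
        _ ≤ R := by rw [mul_one]; exact (hR ρ.1 ρ.2).2
    nlinarith [norm_nonneg (ξ ρ), sq_nonneg (‖ξ ρ‖ - 1)]
  have h1 := DjU_A hc β (π : B →⋆ₙₐ[ℂ] (K →L[ℂ] K)) ξ (R + 1) hn D (fun φ h1 h2 h3 => hD φ h1 h2 (by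
    intro F ε hε N₀
    obtain ⟨N, hN, i, hi⟩ := h3 F ε hε N₀
    refine ⟨N, hN, _, ⟨i.1, i.2, rfl⟩, fun a ha => ?_⟩
    simp_rw [it_eq]
    have h4 : ‖av β (rr (π : B →⋆ₙₐ[ℂ] (K →L[ℂ] K)) (ξ i)) N a - φ a‖ < ε := hi a ha
    have h5 : rr (π : B →⋆ₙₐ[ℂ] (K →L[ℂ] K)) (ξ i) = ⇑i.1 := by
      funext a
      exact hξ i a
    rw [h5] at h4
    exact h4)) x hx
  have hb : ∀ p : S × {b : B // ‖b‖ ≤ 1}, ‖π (star p.2.1) (ξ p.1)‖ ≤ R + 1 := by
    intro p
    refine (pi_le (π : B →⋆ₙₐ[ℂ] (K →L[ℂ] K)) (ξ p.1) _).trans ?_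
    rw [norm_star]
    have h2 : ‖p.2.1‖ ≤ 1 := p.2.2
    calc ‖ξ p.1‖ * ‖p.2.1‖ ≤ ‖ξ p.1‖ * 1 := mul_le_mul_of_nonneg_left h2 (norm_nonneg _)
      _ ≤ R + 1 := by rw [mul_one]; exact hn p.1
  refine disjoint_of_DjU hc.1 (M := (R + 1) * ((R + 1) * ‖x‖)) (fun p m => ?_)
    (h1.map (fun p : S × {b : B // ‖b‖ ≤ 1} => p.1) (fun p => π (star p.2.1) (ξ p.1)) (R + 1) hb) _
    fun p n => ?_
  · refine (norm_inner_le_norm _ _).trans (mul_le_mul (hb p) ?_ (norm_nonneg _) ((norm_nonneg _).trans (hb p)))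
    exact (yy_le β (π : B →⋆ₙₐ[ℂ] (K →L[ℂ] K)) (ξ p.1) x m).trans (mul_le_mul_of_nonneg_right (hn p.1) (norm_nonneg _))
  · rw [it_eq]
    simp only [yy, Int.toNat_natCast]
    show _ = p.1.1 (p.2.1 * (β ^ n) x)
    rw [← hξ, map_mul, map_star]
    show inner ℂ _ (π ((β ^ n) x) (ξ p.1)) = inner ℂ (ξ p.1) ((π p.2.1) (π ((β ^ n) x) (ξ p.1)))
    rw [ContinuousLinearMap.star_eq_adjoint, ContinuousLinearMap.adjoint_inner_left]

theorem part3a {E : Set ℕ} {c : ℕ → ℂ} (hc : Uncorrelated E c) {A : Type u} [NonUnitalCStarAlgebra A]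
    (α : A ≃⋆ₐ[ℂ] A) (D : Set A)
    (hD : ∀ φ : A →L[ℂ] ℂ, Positive (valMap φ) → Invariant (autMap α) (valMap φ) →
      ∀ x ∈ D, SingularAt (autMap α) (valMap φ) x)
    (x : A) (hx : x ∈ closedSpan D) : NormDisjoint (autMap α) E c x := by
  obtain ⟨K, _, _, _, π, hπ⟩ := exists_faithful A
  have h1 := DjU_A hc α π (fun ξ : {ξ : K // ‖ξ‖ ≤ 1} => ξ.1) 1 (fun ξ => ξ.2) D
    (fun φ h1 h2 _ => hD φ h1 h2) x hx
  have hM : ∀ (ξ : {ξ : K // ‖ξ‖ ≤ 1}) (m : ℤ), ‖yy α π ξ.1 x m‖ ≤ 1 * ‖x‖ := fun ξ m =>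
    (yy_le α π ξ.1 x m).trans (mul_le_mul_of_nonneg_right ξ.2 (norm_nonneg _))
  have hpi : ∀ (S : Finset ℕ) (θ : ℝ) (ξ : K), π (orbitSum (autMap α) c θ S x) ξ =
      twistedSum c θ S (fun m => π ((α ^ m) x) ξ) := by
    intro S θ ξ
    have e : ∀ m : ℕ, (autMap α)^[m] x = (α ^ m) x := fun m => it_eq α m x
    unfold orbitSum twistedSum
    simp_rw [e]
    rw [map_sum, _root_.sum_apply]
    exact sum_congr rfl fun m _ => by rw [map_smul]; rfl
  have hlong : ∀ ε : ℝ, 0 < ε → ∀ᶠ N : ℕ in outside E, ∀ θ : ℝ,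
      ‖orbitSum (autMap α) c θ (Icc 1 N) x‖ ≤ ε * N := by
    intro ε hε
    obtain ⟨N₀, h3⟩ := h1.long (Tws_le hc.1) hM ε hε
    refine ev_Lf.2 ⟨N₀, fun N hN hNE θ => ?_⟩
    rw [← hπ]
    refine norm_op_le _ _ (by positivity) fun ξ hξ => ?_
    rw [hpi, conv2 c θ (yy α π ξ x) _ (fun n => by simp [yy])]
    exact h3 N hN hNE _ ⟨(θ : UnitAddCircle), rfl⟩ ⟨ξ, hξ⟩
  intro ε hε
  refine ⟨?_, hlong ε hε, fun hE => ?_⟩
  · obtain ⟨H₀, -, h2⟩ := h1 ε hε
    refine ⟨H₀, fun H hH N hN hNE θ => ?_⟩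
    rw [← hπ, windowSquares, map_sum]
    simp_rw [map_mul, map_star]
    refine norm_sq_ops _ _ _ (by positivity) fun ξ hξ => ?_
    refine le_trans (le_of_eq ?_) (h2 H hH N hN hNE _ ⟨(θ : UnitAddCircle), rfl⟩ ⟨ξ, hξ⟩)
    refine sum_congr rfl fun n _ => ?_
    rw [hpi, conv1 c θ (yy α π ξ x) _ (fun n => by simp [yy])]
  · have h4 := log_of hE hc.1 (fun (_ : Unit) (m : ℕ) => (autMap α)^[m] x) ‖x‖
      (fun _ n => by rw [it_eq]; exact (norm_pow_apply α n x).le)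
      (fun ε' hε' => by
        filter_upwards [hlong ε' hε'] with N hN θ _
        exact hN θ) ε hε
    filter_upwards [h4] with T hT θ
    exact hT θ ()

theorem part3b {E : Set ℕ} {c : ℕ → ℂ} {A : Type u} [NonUnitalCStarAlgebra A]
    {T : A → A} (h : ∀ x : A, NormDisjoint T E c x) : FunctionalsDisjoint T E c := by
  intro x ρ
  have hexp : ∀ (d : ℕ → ℂ) (S : Finset ℕ), ∑ n ∈ S, d n * valMap ρ (T^[n] x) = ρ (orbitSum T d 0 S x) := by
    intro d S
    unfold orbitSum twistedSum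
    rw [map_sum]
    refine Finset.sum_congr rfl fun n _ => ?_
    rw [map_smul, smul_eq_mul]
    simp [valMap]
  constructor
  · rw [Metric.tendsto_nhds]
    intro ε hε
    have hpos : ∀ᶠ N : ℕ in outside E, 1 ≤ N := (eventually_ge_atTop 1).filter_mono inf_le_left
    filter_upwards [(h x (ε / (2 * (‖ρ‖ + 1))) (by positivity)).2.1, hpos] with N hN hN1
    have hN0 : (0 : ℝ) < N := by exact_mod_cast hN1
    rw [dist_zero_right, hexp, norm_mul, norm_div, norm_one, Complex.norm_natCast]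
    calc 1 / (N : ℝ) * ‖ρ (orbitSum T c 0 (Icc 1 N) x)‖
        ≤ 1 / (N : ℝ) * (‖ρ‖ * (ε / (2 * (‖ρ‖ + 1)) * N)) := by
          gcongr
          exact (ρ.le_opNorm _).trans (mul_le_mul_of_nonneg_left (hN 0) (norm_nonneg _))
      _ = ε / 2 * (‖ρ‖ / (‖ρ‖ + 1)) := by field_simp
      _ ≤ ε / 2 * 1 := by
          gcongr
          rw [div_le_one (by positivity)]
          linarith
      _ < ε := by linarith
  · intro hE
    rw [Metric.tendsto_nhds]
    intro ε hε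
    have hpos : ∀ᶠ X : ℕ in atTop, 1 < X := eventually_gt_atTop 1
    filter_upwards [(h x (ε / (2 * (‖ρ‖ + 1))) (by positivity)).2.2 hE, hpos] with X hX hX1
    have hX0 : (0 : ℝ) < Real.log X := Real.log_pos (by exact_mod_cast hX1)
    rw [dist_zero_right, hexp, norm_mul, norm_div, norm_one, Complex.norm_real, Real.norm_of_nonneg hX0.le]
    calc 1 / Real.log X * ‖ρ (orbitSum T (fun n => c n / n) 0 (Icc 1 X) x)‖
        ≤ 1 / Real.log X * (‖ρ‖ * (ε / (2 * (‖ρ‖ + 1)) * Real.log X)) := by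
          gcongr
          exact (ρ.le_opNorm _).trans (mul_le_mul_of_nonneg_left (hX 0) (norm_nonneg _))
      _ = ε / 2 * (‖ρ‖ / (‖ρ‖ + 1)) := by field_simp
      _ ≤ ε / 2 * 1 := by
          gcongr
          rw [div_le_one (by positivity)]
          linarith
      _ < ε := by linarith

/-- **Möbius disjointness for automorphisms whose invariant functionals have singular spectral measures.**
(A) There is a set of logarithmic density zero outside of which the Möbius and the Liouville function are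
uncorrelated with their shifts. (B) The statements (1), (2), (3) hold for every uncorrelated sequence. -/
theorem result :
    (∃ E : Set ℕ, LogDensityZero E ∧ Uncorrelated E mu ∧ Uncorrelated E lam) ∧
    ∀ (E : Set ℕ) (c : ℕ → ℂ), Uncorrelated E c →
      VectorStatement.{u, v} E c ∧ PositiveStatement.{u} E c ∧ NormStatement.{u} E c :=
  ⟨part_E, fun _ _ hc => ⟨part1 hc, part2 hc, fun _ _ α D hD => ⟨fun x hx => part3a hc α D hD x hx,
    fun hd => part3b fun x => part3a hc α D hD x (by rw [hd]; trivial)⟩⟩⟩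

end Pool.Agent.Results.MP_7a8f48_an.SingularStatesH86
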