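import Pool.Agent.E8helper86.NS.Sing

/-! Möbius disjointness for vectors with singular spectral measure, and the converse. -/

set_option autoImplicit false

open Filter Topology Finset MeasureTheory

namespace Pool.Agent.Results.MP_7a8f48_an.SingularVectorsH86

universe u v

open Classical in
/-- `E` has logarithmic density zero -/
def LogDensityZero (E : Set ℕ) : Prop :=
  Tendsto (fun X : ℕ => (∑ n ∈ Icc 1 X, if n ∈ E then (1 : ℝ) / n else 0) / Real.log X) atTop (𝓝 0)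

/-- the large numbers outside `E` -/
def outside (E : Set ℕ) : Filter ℕ := atTop ⊓ 𝓟 Eᶜ

/-- `c` is bounded by one and its self correlations tend to zero outside `E` -/
def Uncorrelated (E : Set ℕ) (c : ℕ → ℂ) : Prop :=
  (∀ n, ‖c n‖ ≤ 1) ∧ ∀ h : ℕ, 1 ≤ h →
    Tendsto (fun N : ℕ => (1 / (N : ℂ)) * ∑ n ∈ Icc 1 N, star (c n) * c (n + h)) (outside E) (𝓝 0)

/-- the Möbius function -/
noncomputable def mu (n : ℕ) : ℂ := ((ArithmeticFunction.moebius n : ℤ) : ℂ)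

/-- the Liouville function -/
noncomputable def lam (n : ℕ) : ℂ := (((-1) ^ ArithmeticFunction.cardFactors n : ℤ) : ℂ)

/-- `e(nθ)` -/
noncomputable def phase (n : ℕ) (θ : ℝ) : ℂ := Complex.exp (2 * Real.pi * Complex.I * n * θ)

/-- the sum of `c n e(nθ) f n` over `1 ≤ n ≤ N` -/
noncomputable def wsum {Y : Type*} [NormedAddCommGroup Y] [NormedSpace ℂ Y] (c : ℕ → ℂ) (θ : ℝ)
    (f : ℕ → Y) (N : ℕ) : Y :=
  ∑ n ∈ Icc 1 N, (c n * phase n θ) • f n

/-- The measure `σ` on `ℝ/ℤ` is the spectral measure of the vector `ξ` with respect to the unitary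
`U`: the inner product of `ξ` and `Uⁿ ξ` is the integral of `exp (2 π i n z)`, for all `n ≥ 0`. -/
def SpectralMeasure {H : Type u} [NormedAddCommGroup H] [InnerProductSpace ℂ H] (U : H ≃ₗᵢ[ℂ] H) (ξ : H)
    (σ : Measure UnitAddCircle) : Prop :=
  ∀ n : ℕ, inner ℂ ξ ((U ^ n) ξ) = ∫ z, (fourier (n : ℤ) z : ℂ) ∂σ

/-- (1) The sums of `c n e(nθ) Uⁿ B Vⁿ ξ` over `1 ≤ n ≤ N` have norm at most `ε N ‖B‖`, for `N`
outside `E` and large in terms of `ε`, `c` and `σ` only, and all vectors `ξ` with spectral measure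
`σ` for `V`. -/
def SandwichBound (σ : Measure UnitAddCircle) (E : Set ℕ) (c : ℕ → ℂ) : Prop :=
  ∀ ε : ℝ, 0 < ε → ∀ᶠ N : ℕ in outside E, ∀ (H : Type u) [NormedAddCommGroup H] [InnerProductSpace ℂ H]
    [CompleteSpace H] (U V : H ≃ₗᵢ[ℂ] H) (B : H →L[ℂ] H) (ξ : H) (θ : ℝ), SpectralMeasure V ξ σ →
    ‖wsum c θ (fun n => (U ^ n) (B ((V ^ n) ξ))) N‖ ≤ ε * N * ‖B‖

/-- `f` is an orbit of the map `T` -/
def IsOrbit {A : Type u} (T : A → A) (f : ℕ → A) : Prop := ∀ n, f (n + 1) = T (f n)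

/-- an automorphism as a map -/
noncomputable def autMap {A : Type u} [NonUnitalCStarAlgebra A] (α : A ≃⋆ₐ[ℂ] A) : A → A := fun x => α x

/-- a representation as a map -/
noncomputable def repMap {A : Type u} [NonUnitalCStarAlgebra A] {H : Type v} [NormedAddCommGroup H]
    [InnerProductSpace ℂ H] [CompleteSpace H] (π : A →⋆ₙₐ[ℂ] (H →L[ℂ] H)) : A → H → H := fun x ζ => π x ζ

/-- `U` implements `T` in the representation `π` -/
def Covariant {A : Type u} {H : Type v} [NormedAddCommGroup H] [InnerProductSpace ℂ H] (T : A → A)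
    (π : A → H → H) (U : H ≃ₗᵢ[ℂ] H) : Prop :=
  ∀ x ζ, π (T x) (U ζ) = U (π x ζ)

/-- (2) For each automorphism of a C*-algebra, each covariant representation `π`, `U` of it, each
orbit `f` in the unit ball and each vector `ξ` with spectral measure `σ`, the sum of
`c n e(nθ) π(f n) ξ` over `n ≤ N` has norm at most `ε N`, for `N` outside `E` and large, and the
logarithmic sum of `c n e(nθ) π(f n) ξ / n` over `n ≤ X` has norm at most `ε log X` for all large
`X`, uniformly. -/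
def RepresentationBound (σ : Measure UnitAddCircle) (E : Set ℕ) (c : ℕ → ℂ) : Prop :=
  ∀ ε : ℝ, 0 < ε →
    (∀ᶠ N : ℕ in outside E, ∀ (A : Type v) [NonUnitalCStarAlgebra A] (α : A ≃⋆ₐ[ℂ] A) (H : Type u)
      [NormedAddCommGroup H] [InnerProductSpace ℂ H] [CompleteSpace H] (π : A →⋆ₙₐ[ℂ] (H →L[ℂ] H))
      (U : H ≃ₗᵢ[ℂ] H) (ξ : H), Covariant (autMap α) (repMap π) U → SpectralMeasure U ξ σ →
      ∀ (f : ℕ → A) (θ : ℝ), IsOrbit (autMap α) f → ‖f 0‖ ≤ 1 →
      ‖wsum c θ (fun n => repMap π (f n) ξ) N‖ ≤ ε * N) ∧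
    ∀ᶠ X : ℕ in atTop, ∀ (A : Type v) [NonUnitalCStarAlgebra A] (α : A ≃⋆ₐ[ℂ] A) (H : Type u)
      [NormedAddCommGroup H] [InnerProductSpace ℂ H] [CompleteSpace H] (π : A →⋆ₙₐ[ℂ] (H →L[ℂ] H))
      (U : H ≃ₗᵢ[ℂ] H) (ξ : H), Covariant (autMap α) (repMap π) U → SpectralMeasure U ξ σ →
      ∀ (f : ℕ → A) (θ : ℝ), IsOrbit (autMap α) f → ‖f 0‖ ≤ 1 →
      ‖wsum (fun n => c n / n) θ (fun n => repMap π (f n) ξ) X‖ ≤ ε * Real.log X

/-- The value at `Uⁿ B U⁻ⁿ` of the vector functional of `ξ`. -/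
noncomputable def vectorValue {H : Type u} [NormedAddCommGroup H] [InnerProductSpace ℂ H] (U : H ≃ₗᵢ[ℂ] H)
    (B : H →L[ℂ] H) (ξ : H) (n : ℕ) : ℂ :=
  inner ℂ ξ ((U ^ n) (B ((U ^ n).symm ξ)))

/-- (3) The vector functionals of all vectors with spectral measure `σ` are disjoint from the Möbius
function in logarithmic average, along the orbits of the inner automorphism of `B(H)`. -/
def VectorsDisjoint (σ : Measure UnitAddCircle) : Prop :=
  ∀ (H : Type) [NormedAddCommGroup H] [InnerProductSpace ℂ H] [CompleteSpace H] (U : H ≃ₗᵢ[ℂ] H) (ξ : H),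
    SpectralMeasure U ξ σ → ∀ B : H →L[ℂ] H,
    Tendsto (fun X : ℕ => (1 / (Real.log X : ℂ)) * ∑ n ∈ Icc 1 X, mu n / n * vectorValue U B ξ n)
      atTop (𝓝 0)

/-- (4) There are a unitary, a vector with spectral measure `σ` and a number `κ > 0` such that, for
each uncorrelated `c`, some contraction `B` has the sum of `c n` times the vector functional at
`Uⁿ B U⁻ⁿ` equal to `κ` times the sum of `‖c n‖ ^ 2` up to `ε N`, outside `E`. -/
def Correlates (σ : Measure UnitAddCircle) : Prop :=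
  ∃ (H : Type) (_ : NormedAddCommGroup H) (_ : InnerProductSpace ℂ H) (_ : CompleteSpace H)
    (U : H ≃ₗᵢ[ℂ] H) (ξ : H) (κ : ℝ), 0 < κ ∧ SpectralMeasure U ξ σ ∧
    ∀ (E : Set ℕ) (c : ℕ → ℂ), Uncorrelated E c → ∃ B : H →L[ℂ] H, ‖B‖ ≤ 1 ∧
      ∀ ε : ℝ, 0 < ε → ∀ᶠ N : ℕ in outside E,
        ‖∑ n ∈ Icc 1 N, c n * vectorValue U B ξ n - ((κ * ∑ n ∈ Icc 1 N, ‖c n‖ ^ 2 : ℝ) : ℂ)‖ ≤ ε * N

open Pool.Agent.E8helper86.NS
open scoped InnerProductSpace

theorem corrZero_iff {E : Set ℕ} {c : ℕ → ℂ} : CorrZero E c ↔ ∀ h : ℕ, 1 ≤ h →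
    Tendsto (fun N : ℕ => (1 / (N : ℂ)) * ∑ n ∈ Icc 1 N, star (c n) * c (n + h)) (outside E) (𝓝 0) := by
  have hpos : ∀ᶠ N : ℕ in Lf E, 1 ≤ N := (eventually_ge_atTop 1).filter_mono inf_le_left
  constructor
  · intro hc h hh
    rw [Metric.tendsto_nhds]
    intro ε hε
    have h1 : ∀ᶠ N : ℕ in Lf E, ‖∑ n ∈ Icc 1 N, star (c n) * c (n + h)‖ ≤ ε / 2 * N :=
      ev_Lf.2 (hc h hh (ε / 2) (by positivity))
    show ∀ᶠ N : ℕ in Lf E, _
    filter_upwards [h1, hpos] with N h2 h3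
    have hN : (0 : ℝ) < N := by exact_mod_cast h3
    rw [dist_zero_right, norm_mul, norm_div, norm_one, Complex.norm_natCast, one_div, ← div_eq_inv_mul,
      div_lt_iff₀ hN]
    nlinarith
  · intro hc h hh δ hδ
    have h1 := (Metric.tendsto_nhds.1 (hc h hh)) δ hδ
    have h2 : ∀ᶠ N : ℕ in Lf E, ‖∑ n ∈ Icc 1 N, star (c n) * c (n + h)‖ ≤ δ * N := by
      have h1' : ∀ᶠ N : ℕ in Lf E, dist ((1 / (N : ℂ)) * ∑ n ∈ Icc 1 N, star (c n) * c (n + h)) 0 < δ := h1
      filter_upwards [h1', hpos] with N h2 h3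
      have hN : (0 : ℝ) < N := by exact_mod_cast h3
      rw [dist_zero_right, norm_mul, norm_div, norm_one, Complex.norm_natCast, one_div, ← div_eq_inv_mul,
        div_lt_iff₀ hN] at h2
      exact h2.le
    exact ev_Lf.1 h2

theorem part_E : ∃ E : Set ℕ, LogDensityZero E ∧ Uncorrelated E mu ∧ Uncorrelated E lam := by
  obtain ⟨E, h1, h2, h3⟩ := exc
  refine ⟨E, h1, ⟨fun n => ?_, corrZero_iff.1 h2⟩, ⟨fun n => ?_, corrZero_iff.1 h3⟩⟩
  · unfold mu
    have h1 : |ArithmeticFunction.moebius n| ≤ 1 := ArithmeticFunction.abs_moebius_le_one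
    rw [Complex.norm_intCast]
    exact_mod_cast h1
  · unfold lam
    push_cast
    rw [norm_pow, norm_neg, norm_one, one_pow]

section bridge

variable {H : Type u} [NormedAddCommGroup H] [InnerProductSpace ℂ H] [CompleteSpace H]

/-- the unitary operator -/
noncomputable def uu (U : H ≃ₗᵢ[ℂ] H) : unitary (H →L[ℂ] H) := Unitary.linearIsometryEquiv.symm U

theorem uu_apply (U : H ≃ₗᵢ[ℂ] H) (x : H) : (uu U : H →L[ℂ] H) x = U x := rfl

theorem uu_pow (U : H ≃ₗᵢ[ℂ] H) (n : ℕ) (x : H) : ((uu U : H →L[ℂ] H) ^ n) x = (U ^ n) x := by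
  have h : (uu U) ^ n = uu (U ^ n) := (map_pow (Unitary.linearIsometryEquiv (𝕜 := ℂ) (H := H)).symm U n).symm
  have h2 := congrArg (fun z : unitary (H →L[ℂ] H) => (z : H →L[ℂ] H) x) h
  exact h2

theorem uu_star (U : H ≃ₗᵢ[ℂ] H) (n : ℕ) (x : H) : ((star (uu U : H →L[ℂ] H)) ^ n) x = (U ^ n).symm x := by
  apply (U ^ n).injective
  rw [LinearIsometryEquiv.apply_symm_apply, ← uu_pow]
  have h : ((uu U : H →L[ℂ] H) ^ n) * (star (uu U : H →L[ℂ] H)) ^ n = 1 := by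
    rw [← star_pow]
    exact Unitary.mul_star_self_of_mem (((uu U) ^ n).2)
  exact congrArg (fun z : H →L[ℂ] H => z x) h

theorem specMeas_iff (U : H ≃ₗᵢ[ℂ] H) (ξ : H) (σ : Measure UnitAddCircle) :
    SpecMeas (uu U) ξ σ ↔ SpectralMeasure U ξ σ := by
  unfold SpecMeas SpectralMeasure
  simp_rw [uu_pow]

theorem exists_uu (u : unitary (H →L[ℂ] H)) : ∃ U : H ≃ₗᵢ[ℂ] H, uu U = u :=
  ⟨Unitary.linearIsometryEquiv u, Unitary.linearIsometryEquiv.symm_apply_apply u⟩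

end bridge

theorem part1 {σ : Measure UnitAddCircle} [IsFiniteMeasure σ] (hσ : σ ⟂ₘ volume) {E : Set ℕ} {c : ℕ → ℂ}
    (hc : Uncorrelated E c) : SandwichBound.{u} σ E c := by
  intro ε hε
  show ∀ᶠ N : ℕ in Lf E, _
  filter_upwards [vec_both.{u} σ hσ hc.1 (corrZero_iff.2 hc.2) ε hε] with N hN H _ _ _ U V B ξ θ hξ
  have h1 := hN H (uu U) (uu V) B ξ θ ((specMeas_iff V ξ σ).2 hξ)
  simp_rw [uu_pow] at h1
  exact h1

theorem orbit_eq {A : Type u} [NonUnitalCStarAlgebra A] {α : A ≃⋆ₐ[ℂ] A} {f : ℕ → A} (hf : IsOrbit (autMap α) f) (n : ℕ) :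
    f n = (α ^ n) (f 0) := by
  induction n with
  | zero => simp
  | succ n ih =>
    rw [hf, ih, add_comm, pow_add, pow_one]
    rfl

theorem cov_iff {A : Type v} [NonUnitalCStarAlgebra A] {α : A ≃⋆ₐ[ℂ] A} {H : Type u}
    [NormedAddCommGroup H] [InnerProductSpace ℂ H] [CompleteSpace H] {π : A →⋆ₙₐ[ℂ] (H →L[ℂ] H)}
    {U : H ≃ₗᵢ[ℂ] H} (h : Covariant (autMap α) (repMap π) U) (x : A) :
    π (α x) = (uu U : H →L[ℂ] H) * π x * star (uu U : H →L[ℂ] H) := by
  have h1 : π (α x) * (uu U : H →L[ℂ] H) = (uu U : H →L[ℂ] H) * π x := by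
    ext ζ
    exact h x ζ
  rw [← h1, mul_assoc, Unitary.mul_star_self_of_mem (uu U).2, mul_one]

theorem part2 {σ : Measure UnitAddCircle} [IsFiniteMeasure σ] (hσ : σ ⟂ₘ volume) {E : Set ℕ} {c : ℕ → ℂ}
    (hLZ : LogDensityZero E) (hc : Uncorrelated E c) : RepresentationBound.{u, v} σ E c := by
  intro ε hε
  constructor
  · show ∀ᶠ N : ℕ in Lf E, _
    filter_upwards [rep_part.{u, v} σ hσ hc.1 (corrZero_iff.2 hc.2) ε hε] with N hN A _ α H _ _ _ π U ξ h hξ f θ hf hf1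
    have h1 := hN A α H π (uu U) ξ (cov_iff h) ((specMeas_iff U ξ σ).2 hξ) (f 0) θ
    have h2 : π (twa c θ α (f 0) N) ξ = wsum c θ (fun n => repMap π (f n) ξ) N := by
      unfold twa wsum
      rw [map_sum, _root_.sum_apply]
      refine Finset.sum_congr rfl fun n _ => ?_
      have e : repMap π (f n) ξ = π ((α ^ n) (f 0)) ξ := by
        rw [orbit_eq hf n]
        rfl
      show _ = (c n * phase n θ) • repMap π (f n) ξ
      rw [e, map_smul]
      rfl
    rw [h2] at h1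
    refine h1.trans ?_
    have : 0 ≤ ε * (N : ℝ) := by positivity
    nlinarith
  · filter_upwards [rep_log.{u, v} σ hσ hLZ hc.1 (corrZero_iff.2 hc.2) ε hε] with X hX A _ α H _ _ _ π U ξ h hξ f θ hf hf1
    have h1 := hX A α H π (uu U) ξ (cov_iff h) ((specMeas_iff U ξ σ).2 hξ) (f 0) θ
    have h2 : π (twl c θ α (f 0) X) ξ = wsum (fun n => c n / n) θ (fun n => repMap π (f n) ξ) X := by
      unfold twl wsum
      rw [map_sum, _root_.sum_apply]
      refine Finset.sum_congr rfl fun n _ => ?_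
      have e : repMap π (f n) ξ = π ((α ^ n) (f 0)) ξ := by
        rw [orbit_eq hf n]
        rfl
      show _ = (c n / n * phase n θ) • repMap π (f n) ξ
      rw [e, map_smul]
      show (c n * Complex.exp (2 * Real.pi * Complex.I * n * θ) / n) • π ((α ^ n) (f 0)) ξ =
        (c n / n * phase n θ) • π ((α ^ n) (f 0)) ξ
      congr 1
      unfold phase
      ring
    rw [h2] at h1
    refine h1.trans ?_
    have h3 : 0 ≤ Real.log X := Real.log_natCast_nonneg X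
    have : 0 ≤ ε * Real.log X := by positivity
    nlinarith

theorem part3a {σ : Measure UnitAddCircle} [IsFiniteMeasure σ] (hσ : σ ⟂ₘ volume) : VectorsDisjoint σ := by
  intro H _ _ _ U ξ hξ B
  obtain ⟨E, hLZ, hmu, -⟩ := part_E
  rw [Metric.tendsto_nhds]
  intro ε hε
  -- the representation of `B(H)` on `H`
  let w := uu U
  let α : (H →L[ℂ] H) ≃⋆ₐ[ℂ] (H →L[ℂ] H) :=
    { toFun := fun x => (w : H →L[ℂ] H) * x * star (w : H →L[ℂ] H)
      invFun := fun x => star (w : H →L[ℂ] H) * x * (w : H →L[ℂ] H)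
      left_inv := fun x => by
        show star (w : H →L[ℂ] H) * ((w : H →L[ℂ] H) * x * star (w : H →L[ℂ] H)) * (w : H →L[ℂ] H) = x
        have e1 : star (w : H →L[ℂ] H) * (w : H →L[ℂ] H) = 1 := Unitary.star_mul_self_of_mem w.2
        calc _ = (star (w : H →L[ℂ] H) * (w : H →L[ℂ] H)) * x * (star (w : H →L[ℂ] H) * (w : H →L[ℂ] H)) := by
              simp only [mul_assoc]
          _ = x := by rw [e1, one_mul, mul_one]
      right_inv := fun x => by
        show (w : H →L[ℂ] H) * (star (w : H →L[ℂ] H) * x * (w : H →L[ℂ] H)) * star (w : H →L[ℂ] H) = x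
        have e1 : (w : H →L[ℂ] H) * star (w : H →L[ℂ] H) = 1 := Unitary.mul_star_self_of_mem w.2
        calc _ = ((w : H →L[ℂ] H) * star (w : H →L[ℂ] H)) * x * ((w : H →L[ℂ] H) * star (w : H →L[ℂ] H)) := by
              simp only [mul_assoc]
          _ = x := by rw [e1, one_mul, mul_one]
      map_mul' := fun x y => by
        show (w : H →L[ℂ] H) * (x * y) * star (w : H →L[ℂ] H) =
          ((w : H →L[ℂ] H) * x * star (w : H →L[ℂ] H)) * ((w : H →L[ℂ] H) * y * star (w : H →L[ℂ] H))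
        have e1 : star (w : H →L[ℂ] H) * (w : H →L[ℂ] H) = 1 := Unitary.star_mul_self_of_mem w.2
        calc (w : H →L[ℂ] H) * (x * y) * star (w : H →L[ℂ] H) = (w : H →L[ℂ] H) * x * 1 * y * star (w : H →L[ℂ] H) := by
              rw [mul_one]; simp only [mul_assoc]
          _ = _ := by rw [← e1]; simp only [mul_assoc]
      map_add' := fun x y => by
        show (w : H →L[ℂ] H) * (x + y) * star (w : H →L[ℂ] H) =
          (w : H →L[ℂ] H) * x * star (w : H →L[ℂ] H) + (w : H →L[ℂ] H) * y * star (w : H →L[ℂ] H)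
        rw [mul_add, add_mul]
      map_smul' := fun z x => by
        show (w : H →L[ℂ] H) * (z • x) * star (w : H →L[ℂ] H) = z • ((w : H →L[ℂ] H) * x * star (w : H →L[ℂ] H))
        rw [mul_smul_comm, smul_mul_assoc]
      map_star' := fun x => by
        show (w : H →L[ℂ] H) * star x * star (w : H →L[ℂ] H) = star ((w : H →L[ℂ] H) * x * star (w : H →L[ℂ] H))
        rw [star_mul, star_mul, star_star, mul_assoc] }
  set M : ℝ := (‖ξ‖ + 1) * (‖B‖ + 1) with hM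
  have hM0 : 0 < M := by positivity
  have h2 := (part2.{0, 0} hσ hLZ hmu (ε / (2 * M)) (by positivity)).2
  filter_upwards [h2, eventually_ge_atTop 2] with X hX hX2
  have hlog0 : (0 : ℝ) < Real.log X := Real.log_pos (by exact_mod_cast (by omega : 1 < X))
  have hB1 : (0 : ℝ) < ‖B‖ + 1 := by positivity
  have h3 := hX (H →L[ℂ] H) α H (NonUnitalStarAlgHom.id ℂ (H →L[ℂ] H)) U ξ (fun x ζ => by
      show ((w : H →L[ℂ] H) * x * star (w : H →L[ℂ] H)) (U ζ) = U (x ζ)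
      have e1 : star (w : H →L[ℂ] H) * (w : H →L[ℂ] H) = 1 := Unitary.star_mul_self_of_mem w.2
      show ((w : H →L[ℂ] H) * x * star (w : H →L[ℂ] H)) ((w : H →L[ℂ] H) ζ) = (w : H →L[ℂ] H) (x ζ)
      have e2 : ((w : H →L[ℂ] H) * x * star (w : H →L[ℂ] H)) * (w : H →L[ℂ] H) = (w : H →L[ℂ] H) * x := by
        rw [mul_assoc, e1, mul_one]
      exact congrArg (fun z : H →L[ℂ] H => z ζ) e2) hξ (fun n => (α ^ n) ((((‖B‖ + 1 : ℝ) : ℂ))⁻¹ • B)) 0
      (fun n => by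
        show (α ^ (n + 1)) _ = α ((α ^ n) _)
        rw [pow_succ']
        rfl) (by
        rw [pow_zero]
        show ‖(((‖B‖ + 1 : ℝ) : ℂ))⁻¹ • B‖ ≤ 1
        rw [norm_smul, norm_inv, Complex.norm_real, Real.norm_of_nonneg hB1.le, inv_mul_le_iff₀ hB1]
        linarith)
  have h4 : ∑ n ∈ Icc 1 X, mu n / n * vectorValue U B ξ n = ((‖B‖ + 1 : ℝ) : ℂ) *
      ⟪ξ, wsum (fun n => mu n / n) 0 (fun n => repMap (NonUnitalStarAlgHom.id ℂ (H →L[ℂ] H))
        ((α ^ n) ((((‖B‖ + 1 : ℝ) : ℂ))⁻¹ • B)) ξ) X⟫_ℂ := by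
    unfold wsum
    rw [inner_sum, Finset.mul_sum]
    refine Finset.sum_congr rfl fun n _ => ?_
    rw [inner_smul_right]
    have e1 : (α ^ n) ((((‖B‖ + 1 : ℝ) : ℂ))⁻¹ • B) = (((‖B‖ + 1 : ℝ) : ℂ))⁻¹ • (α ^ n) B := map_smul _ _ _
    have e2 : (α ^ n) B = (w : H →L[ℂ] H) ^ n * B * star (w : H →L[ℂ] H) ^ n :=
      auto_pow (α := α) (ι := NonUnitalStarAlgHom.id ℂ (H →L[ℂ] H)) (w := w) (fun x => rfl) n B
    have e3 : repMap (NonUnitalStarAlgHom.id ℂ (H →L[ℂ] H)) ((α ^ n) ((((‖B‖ + 1 : ℝ) : ℂ))⁻¹ • B)) ξ =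
        (((‖B‖ + 1 : ℝ) : ℂ))⁻¹ • (((w : H →L[ℂ] H) ^ n * B * star (w : H →L[ℂ] H) ^ n) ξ) := by
      rw [e1, e2]
      rfl
    have e4 : ((w : H →L[ℂ] H) ^ n * B * star (w : H →L[ℂ] H) ^ n) ξ = (U ^ n) (B ((U ^ n).symm ξ)) := by
      show ((w : H →L[ℂ] H) ^ n) (B ((star (w : H →L[ℂ] H) ^ n) ξ)) = _
      rw [uu_star, uu_pow]
    have e5 : phase n 0 = 1 := by unfold phase; simp
    show mu n / n * vectorValue U B ξ n = ((‖B‖ + 1 : ℝ) : ℂ) * ((mu n / n * phase n 0) *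
      ⟪ξ, repMap (NonUnitalStarAlgHom.id ℂ (H →L[ℂ] H)) ((α ^ n) ((((‖B‖ + 1 : ℝ) : ℂ))⁻¹ • B)) ξ⟫_ℂ)
    rw [e3, e4, inner_smul_right, e5, mul_one]
    unfold vectorValue
    have hne : ((‖B‖ + 1 : ℝ) : ℂ) ≠ 0 := by exact_mod_cast hB1.ne'
    field_simp
  rw [dist_zero_right, h4, norm_mul, norm_div, norm_one, Complex.norm_real, Real.norm_of_nonneg hlog0.le,
    norm_mul, Complex.norm_real, Real.norm_of_nonneg hB1.le, one_div, inv_mul_lt_iff₀ hlog0]
  calc (‖B‖ + 1) * ‖_‖ ≤ (‖B‖ + 1) * (‖ξ‖ * (ε / (2 * M) * Real.log X)) := by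
        gcongr
        refine (norm_inner_le_norm _ _).trans ?_
        gcongr
    _ ≤ (‖B‖ + 1) * ((‖ξ‖ + 1) * (ε / (2 * M) * Real.log X)) := by
        gcongr
        linarith
    _ = ε / 2 * Real.log X := by
        rw [hM]
        field_simp
    _ < Real.log X * ε := by nlinarith

theorem part4 {σ : Measure UnitAddCircle} [IsFiniteMeasure σ] (h : ¬ σ ⟂ₘ volume) : Correlates σ := by
  obtain ⟨H, h1, h2, h3, w, ξ, κ, hκ, hs, hB, -⟩ := sing_sharp h
  obtain ⟨U, hU⟩ := exists_uu w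
  refine ⟨H, h1, h2, h3, U, ξ, κ, hκ, (specMeas_iff U ξ σ).1 (by rw [hU]; exact hs), fun E c hc => ?_⟩
  obtain ⟨B, hB1, hB2⟩ := hB E c hc.1 (corrZero_iff.2 hc.2)
  refine ⟨B, hB1, fun ε hε => ?_⟩
  show ∀ᶠ N : ℕ in Lf E, _
  filter_upwards [hB2 ε hε] with N hN
  have e : ∀ n, vectorValue U B ξ n = ⟪bk w ξ n, B (bk w ξ n)⟫_ℂ := by
    intro n
    unfold vectorValue bk
    rw [← hU, uu_star]
    have h := LinearIsometryEquiv.inner_map_map (U ^ n) ((U ^ n).symm ξ) (B ((U ^ n).symm ξ))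
    rw [LinearIsometryEquiv.apply_symm_apply] at h
    exact h
  simp_rw [e]
  exact hN

theorem part3b {σ : Measure UnitAddCircle} [IsFiniteMeasure σ] (h : VectorsDisjoint σ) : σ ⟂ₘ volume := by
  by_contra hcon
  obtain ⟨H, h1, h2, h3, w, ξ, κ, hκ, hs, -, B, hB⟩ := sing_sharp hcon
  obtain ⟨U, hU⟩ := exists_uu w
  have h4 := h H U ξ ((specMeas_iff U ξ σ).1 (by rw [hU]; exact hs)) B
  have h5 := (Metric.tendsto_nhds.1 h4) (κ / 16) (by positivity)
  have e : ∀ n, vectorValue U B ξ n = ⟪bk w ξ n, B (bk w ξ n)⟫_ℂ := by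
    intro n
    unfold vectorValue bk
    rw [← hU, uu_star]
    have h := LinearIsometryEquiv.inner_map_map (U ^ n) ((U ^ n).symm ξ) (B ((U ^ n).symm ξ))
    rw [LinearIsometryEquiv.apply_symm_apply] at h
    exact h
  obtain ⟨X, h6, h7, h8⟩ := (h5.and (hB.and (eventually_ge_atTop 2))).exists
  have hlog0 : (0 : ℝ) < Real.log X := Real.log_pos (by exact_mod_cast (by omega : 1 < X))
  simp_rw [e] at h6
  rw [dist_zero_right, norm_mul, norm_div, norm_one, Complex.norm_real, Real.norm_of_nonneg hlog0.le, one_div,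
    inv_mul_lt_iff₀ hlog0] at h6
  have h9 : ‖∑ n ∈ Icc 1 X, mu n / n * ⟪bk w ξ n, B (bk w ξ n)⟫_ℂ‖ < Real.log X * (κ / 16) := h6
  have h10 : κ / 16 * Real.log X ≤ ‖∑ n ∈ Icc 1 X, mu n / n * ⟪bk w ξ n, B (bk w ξ n)⟫_ℂ‖ := h7
  linarith

/-- **Disjointness for vectors with singular spectral measure.** (A) There is a set of logarithmic
density zero outside of which the Möbius and the Liouville function are uncorrelated with their
shifts. (B) The bounds for singular spectral measures. (C) The converse: the singular measures are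
characterized by disjointness from the Möbius function. -/
theorem result :
    (∃ E : Set ℕ, LogDensityZero E ∧ Uncorrelated E mu ∧ Uncorrelated E lam) ∧
    ∀ (σ : Measure UnitAddCircle) [IsFiniteMeasure σ],
      (σ ⟂ₘ volume → ∀ (E : Set ℕ) (c : ℕ → ℂ), Uncorrelated E c →
        SandwichBound.{u} σ E c ∧ (LogDensityZero E → RepresentationBound.{u, v} σ E c)) ∧
      (σ ⟂ₘ volume ↔ VectorsDisjoint σ) ∧
      (¬ σ ⟂ₘ volume → Correlates σ) :=
  ⟨part_E, fun _ _ => ⟨fun hσ _ _ hc => ⟨part1 hσ hc, fun hLZ => part2 hσ hLZ hc⟩,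
    ⟨fun hσ => part3a hσ, fun h => part3b h⟩, fun h => part4 h⟩⟩

end Pool.Agent.Results.MP_7a8f48_an.SingularVectorsH86
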